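import Mathlib

set_option autoImplicit false

namespace Pool.Agent.Work.MP_518c18_al

open Subgroup
open scoped Pointwise

variable {G : Type*} [Group G]

/-- Every intermediate subgroup `K ≤ X ≤ T` is generated over `K` by at most `r` elements. -/
def GenBy (K T : Subgroup G) (r : ℕ) : Prop :=
  ∀ X : Subgroup G, K ≤ X → X ≤ T →
    ∃ s : Finset G, s.card ≤ r ∧ K ⊔ Subgroup.closure (s : Set G) = X

theorem GenBy.mono {K T : Subgroup G} {r r' : ℕ} (h : GenBy K T r) (hr : r ≤ r') :
    GenBy K T r' := by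
  intro X h1 h2
  obtain ⟨s, hs, hX⟩ := h X h1 h2
  exact ⟨s, hs.trans hr, hX⟩

theorem GenBy.refl (K : Subgroup G) : GenBy K K 0 := by
  intro X h1 h2
  exact ⟨∅, by simp, by simp [le_antisymm h1 h2]⟩

theorem GenBy.trans {K L T : Subgroup G} {a b : ℕ} (hKL : K ≤ L)
    (hLT : L ≤ T) (hn : T ≤ normalizer (L : Set G)) (h1 : GenBy K L a) (h2 : GenBy L T b) :
    GenBy K T (a + b) := by
  classical
  intro X hKX hXT
  obtain ⟨s₁, hs₁, hX₁⟩ := h1 (X ⊓ L) (le_inf hKX hKL) inf_le_right
  obtain ⟨s₂, hs₂, hX₂⟩ := h2 (X ⊔ L) le_sup_right (sup_le hXT hLT)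
  have hmul : ((X ⊔ L : Subgroup G) : Set G) = (X : Set G) * (L : Set G) :=
    coe_mul_of_left_le_normalizer_right X L (hXT.trans hn)
  have hrep : ∀ y : s₂, ∃ x ∈ X, ∃ l ∈ L, x * l = (y : G) := by
    intro y
    have hy : (y : G) ∈ ((X ⊔ L : Subgroup G) : Set G) := by
      rw [← hX₂]
      exact (le_sup_right : _ ≤ L ⊔ Subgroup.closure (s₂ : Set G)) (subset_closure y.2)
    rw [hmul, Set.mem_mul] at hy
    obtain ⟨x, hx, l, hl, h⟩ := hy
    exact ⟨x, hx, l, hl, h⟩
  choose f hfX l hlL hfl using hrep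
  refine ⟨s₁ ∪ Finset.univ.image f, ?_, ?_⟩
  · calc (s₁ ∪ Finset.univ.image f).card ≤ s₁.card + (Finset.univ.image f).card :=
          Finset.card_union_le _ _
      _ ≤ a + b := by
          refine add_le_add hs₁ (Finset.card_image_le.trans ?_)
          simpa using hs₂
  · apply le_antisymm
    · refine sup_le hKX ?_
      rw [closure_le]
      intro y hy
      simp only [Finset.coe_union, Finset.coe_image, Set.mem_union, Finset.mem_coe,
        Finset.coe_univ, Set.image_univ, Set.mem_range] at hy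
      rcases hy with hy | ⟨z, rfl⟩
      · have : y ∈ X ⊓ L := by
          rw [← hX₁]
          exact (le_sup_right : _ ≤ K ⊔ Subgroup.closure (s₁ : Set G)) (subset_closure hy)
        exact this.1
      · exact hfX z
    · set Y := K ⊔ Subgroup.closure ((s₁ ∪ Finset.univ.image f : Finset G) : Set G) with hY
      have hXL : X ⊓ L ≤ Y := by
        rw [← hX₁]
        refine sup_le_sup le_rfl (closure_mono ?_)
        intro y hy
        simp [Finset.mem_coe.mp hy]
      set Z := Subgroup.closure (Set.range f) with hZ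
      have hZY : Z ≤ Y := by
        refine le_trans (closure_mono ?_) (le_sup_right : _ ≤ K ⊔ _)
        intro y hy
        obtain ⟨z, rfl⟩ := hy
        simp
      have hZX : Z ≤ X := by
        rw [hZ, closure_le]
        rintro _ ⟨z, rfl⟩
        exact hfX z
      have hLZ : L ⊔ Subgroup.closure (s₂ : Set G) ≤ Z ⊔ L := by
        refine sup_le le_sup_right ?_
        rw [closure_le]
        intro y hy
        have := hfl ⟨y, hy⟩
        simp only at this
        rw [SetLike.mem_coe, ← this]
        exact mul_mem_sup (subset_closure ⟨_, rfl⟩) (hlL _)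
      intro x hx
      have hx2 : x ∈ ((Z ⊔ L : Subgroup G) : Set G) := by
        apply hLZ
        rw [hX₂]
        exact (le_sup_left : X ≤ X ⊔ L) hx
      rw [coe_mul_of_left_le_normalizer_right Z L ((hZX.trans hXT).trans hn), Set.mem_mul] at hx2
      obtain ⟨z, hz, l', hl', rfl⟩ := hx2
      refine mul_mem (hZY hz) (hXL ⟨?_, hl'⟩)
      have := X.mul_mem (X.inv_mem (hZX hz)) hx
      simpa using this

end Pool.Agent.Work.MP_518c18_al
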