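import Mathlib
import Pool.Agent.Work.MP_518c18_al.GenBy

set_option autoImplicit false

namespace Pool.Agent.Work.MP_518c18_al

open Subgroup

variable {G F V : Type*} [Group G] [Field F] [AddCommGroup V] [Module F V]
  (ρ : Representation F G V)

/-- The elements of `T` fixing `W` pointwise. -/
def fixSub (T : Subgroup G) (W : Submodule F V) : Subgroup G where
  carrier := {g | g ∈ T ∧ ∀ w ∈ W, ρ g w = w}
  one_mem' := ⟨T.one_mem, fun w _ => by simp⟩
  mul_mem' := by
    rintro a b ⟨ha, ha'⟩ ⟨hb, hb'⟩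
    refine ⟨T.mul_mem ha hb, fun w hw => ?_⟩
    rw [map_mul, Module.End.mul_apply, hb' w hw, ha' w hw]
  inv_mem' := by
    rintro a ⟨ha, ha'⟩
    refine ⟨T.inv_mem ha, fun w hw => ?_⟩
    conv_lhs => rw [← ha' w hw]
    rw [← Module.End.mul_apply, ← map_mul]
    simp

theorem mem_fixSub {T : Subgroup G} {W : Submodule F V} {g : G} :
    g ∈ fixSub ρ T W ↔ g ∈ T ∧ ∀ w ∈ W, ρ g w = w := Iff.rfl

theorem fixSub_le (T : Subgroup G) (W : Submodule F V) : fixSub ρ T W ≤ T := fun _ h => h.1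

theorem fixSub_mono {T T' : Subgroup G} {W W' : Submodule F V} (hT : T ≤ T') (hW : W' ≤ W) :
    fixSub ρ T W ≤ fixSub ρ T' W' := fun _ h => ⟨hT h.1, fun w hw => h.2 w (hW hw)⟩

theorem fixSub_fixSub (T : Subgroup G) (W U : Submodule F V) :
    fixSub ρ (fixSub ρ T W) U = fixSub ρ T (W ⊔ U) := by
  ext g
  simp only [mem_fixSub]
  constructor
  · rintro ⟨⟨h1, h2⟩, h3⟩
    refine ⟨h1, fun w hw => ?_⟩
    obtain ⟨y, hy, z, hz, rfl⟩ := Submodule.mem_sup.mp hw
    rw [map_add, h2 y hy, h3 z hz]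
  · rintro ⟨h1, h2⟩
    exact ⟨⟨h1, fun w hw => h2 w (Submodule.mem_sup_left hw)⟩,
      fun w hw => h2 w (Submodule.mem_sup_right hw)⟩

theorem fixSub_fixSub_of_le (T : Subgroup G) {W U : Submodule F V} (h : U ≤ W) :
    fixSub ρ (fixSub ρ T U) W = fixSub ρ T W := by
  rw [fixSub_fixSub, sup_eq_right.mpr h]

/-- `fixSub ρ T W` is normalised by `T` if `W` is `T`-stable. -/
theorem le_normalizer_fixSub (T : Subgroup G) (W : Submodule F V)
    (hW : ∀ g ∈ T, ∀ w ∈ W, ρ g w ∈ W) : T ≤ normalizer (fixSub ρ T W : Set G) := by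
  have key : ∀ g ∈ T, ∀ x ∈ fixSub ρ T W, g * x * g⁻¹ ∈ fixSub ρ T W := by
    intro g hg x hx
    refine ⟨T.mul_mem (T.mul_mem hg hx.1) (T.inv_mem hg), fun w hw => ?_⟩
    rw [map_mul, map_mul, Module.End.mul_apply, Module.End.mul_apply,
      hx.2 _ (hW _ (T.inv_mem hg) w hw), ← Module.End.mul_apply, ← map_mul]
    simp
  intro g hg
  rw [mem_normalizer_iff]
  intro x
  constructor
  · exact key g hg x
  · intro h
    have := key g⁻¹ (T.inv_mem hg) _ h
    simpa [mul_assoc] using this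

/-- `CL W n T`: starting from `T` there is a strictly decreasing chain of length `n` of
pointwise stabilisers in `T` of subspaces of `W`. -/
def CL (W : Submodule F V) : ℕ → Subgroup G → Prop
  | 0, _ => True
  | n + 1, T => ∃ U ≤ W, fixSub ρ T U < T ∧ CL W n (fixSub ρ T U)

theorem CL.mono {W : Submodule F V} {n : ℕ} : ∀ {T T' : Subgroup G}, T ≤ T' →
    CL ρ W n T → CL ρ W n T' := by
  induction n with
  | zero => intros; trivial
  | succ n ih =>
    rintro T T' hT ⟨U, hU, h1, h2⟩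
    refine ⟨U, hU, lt_of_le_of_ne (fixSub_le _ _ _) ?_, ih (fixSub_mono ρ hT le_rfl) h2⟩
    intro h
    apply h1.ne
    apply le_antisymm h1.le
    intro g hg
    have : g ∈ fixSub ρ T' U := by rw [h]; exact hT hg
    exact ⟨hg, this.2⟩

theorem CL.monoW {W W' : Submodule F V} (hW : W ≤ W') {n : ℕ} : ∀ {T : Subgroup G},
    CL ρ W n T → CL ρ W' n T := by
  induction n with
  | zero => intros; trivial
  | succ n ih =>
    rintro T ⟨U, hU, h1, h2⟩
    exact ⟨U, hU.trans hW, h1, ih h2⟩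

theorem CL.trans {W W' : Submodule F V} (hW : W ≤ W') {a b : ℕ} : ∀ {T : Subgroup G},
    CL ρ W a T → CL ρ W' b (fixSub ρ T W) → CL ρ W' (a + b) T := by
  induction a with
  | zero =>
    intro T _ h
    rw [zero_add]
    exact CL.mono ρ (fixSub_le _ _ _) h
  | succ a ih =>
    rintro T ⟨U, hU, h1, h2⟩ h
    rw [Nat.succ_add]
    refine ⟨U, hU.trans hW, h1, ih h2 ?_⟩
    rwa [fixSub_fixSub_of_le ρ T hU]

/-! ### generic vectors and orbit sizes -/

/-- stabiliser of a vector -/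
def stab (v : V) : Subgroup G := fixSub ρ ⊤ (Submodule.span F {v})

theorem mem_stab {v : V} {g : G} : g ∈ stab ρ v ↔ ρ g v = v := by
  constructor
  · intro h
    exact h.2 v (Submodule.mem_span_singleton_self v)
  · intro h
    refine ⟨trivial, fun w hw => ?_⟩
    obtain ⟨a, rfl⟩ := Submodule.mem_span_singleton.mp hw
    rw [map_smul, h]

theorem stab_le_iff [Finite G] {u w : V} (hF : ∀ f : F → Subgroup G, ¬ Function.Injective f) :
    ∃ c : F, stab ρ (u + c • w) = stab ρ u ⊓ stab ρ w := by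
  have h := hF (fun c => stab ρ (u + c • w))
  rw [Function.Injective] at h
  push Not at h
  obtain ⟨a, b, hab, hne⟩ := h
  refine ⟨a, le_antisymm ?_ ?_⟩
  · intro g hg
    have h1 : ρ g (u + a • w) = u + a • w := (mem_stab ρ).mp hg
    have h2 : ρ g (u + b • w) = u + b • w := by
      have : g ∈ stab ρ (u + b • w) := by
        have := hab ▸ hg
        exact this
      exact (mem_stab ρ).mp this
    have h3 : (a - b) • (ρ g w) = (a - b) • w := by
      have : ρ g (u + a • w) - ρ g (u + b • w) = (u + a • w) - (u + b • w) := by rw [h1, h2]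
      simp only [map_add, map_smul] at this
      rw [sub_smul, sub_smul]
      have e1 : ρ g u + a • ρ g w - (ρ g u + b • ρ g w) = a • ρ g w - b • ρ g w := by abel
      have e2 : u + a • w - (u + b • w) = a • w - b • w := by abel
      rw [e1, e2] at this
      exact this
    have h4 : ρ g w = w := by
      have hab' : a - b ≠ 0 := sub_ne_zero.mpr hne
      have := congrArg (fun x => (a - b)⁻¹ • x) h3
      simpa [smul_smul, inv_mul_cancel₀ hab'] using this
    have h5 : ρ g u = u := by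
      rw [map_add, map_smul, h4] at h1
      exact add_right_cancel h1
    exact ⟨(mem_stab ρ).mpr h5, (mem_stab ρ).mpr h4⟩
  · intro g hg
    have h1 := (mem_stab ρ).mp hg.1
    have h2 := (mem_stab ρ).mp hg.2
    rw [mem_stab, map_add, map_smul, h1, h2]

theorem exists_generic [Finite G] (U : Submodule F V)
    (hF : ∀ f : F → Subgroup G, ¬ Function.Injective f) :
    ∃ u ∈ U, stab ρ u = fixSub ρ ⊤ U := by
  classical
  -- choose `u ∈ U` with minimal stabiliser
  obtain ⟨H, ⟨u, hu, rfl⟩, hmin⟩ := (Set.toFinite {H : Subgroup G | ∃ u ∈ U, stab ρ u = H}).exists_minimal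
    ⟨stab ρ 0, 0, U.zero_mem, rfl⟩
  refine ⟨u, hu, le_antisymm ?_ ?_⟩
  · intro g hg
    refine ⟨trivial, fun w hw => ?_⟩
    obtain ⟨c, hc⟩ := stab_le_iff ρ (u := u) (w := w) hF
    have h1 : stab ρ (u + c • w) ≤ stab ρ u := by rw [hc]; exact inf_le_left
    have h2 := hmin ⟨u + c • w, U.add_mem hu (U.smul_mem c hw), rfl⟩ h1
    have h3 := h2 hg
    rw [hc] at h3
    exact (mem_stab ρ).mp h3.2
  · intro g hg
    rw [mem_stab]
    exact hg.2 u hu

/-- the set of orbit sizes -/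
def orbitSizes : Set ℕ := {k : ℕ | ∃ v : V, Set.ncard (Set.range fun g : G => ρ g v) = k}

theorem orbitSizes_eq_index [Finite G] (v : V) :
    Set.ncard (Set.range fun g : G => ρ g v) = (stab ρ v).index := by
  rw [Subgroup.index, ← Nat.card_coe_set_eq]
  symm
  refine Nat.card_congr (Equiv.ofBijective (Quotient.lift (fun g : G => (⟨ρ g v, g, rfl⟩ :
    (Set.range fun g : G => ρ g v))) ?_) ⟨?_, ?_⟩)
  · intro a b hab
    have : a⁻¹ * b ∈ stab ρ v := QuotientGroup.leftRel_apply.mp hab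
    rw [mem_stab, map_mul, Module.End.mul_apply] at this
    apply Subtype.ext
    show ρ a v = ρ b v
    have h2 := congrArg (ρ a) this
    rw [← Module.End.mul_apply, ← map_mul] at h2
    simpa using h2.symm
  · rintro ⟨a⟩ ⟨b⟩ hab
    apply Quotient.sound
    apply QuotientGroup.leftRel_apply.mpr
    have h2 : ρ a v = ρ b v := congrArg Subtype.val hab
    rw [mem_stab, map_mul, Module.End.mul_apply, ← h2, ← Module.End.mul_apply, ← map_mul]
    simp
  · rintro ⟨_, g, rfl⟩
    exact ⟨Quotient.mk'' g, rfl⟩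

theorem orbitSizes_finite [Finite G] : (orbitSizes ρ).Finite := by
  refine (Set.finite_Iic (Nat.card G)).subset ?_
  rintro k ⟨v, rfl⟩
  rw [orbitSizes_eq_index]
  exact Nat.le_of_dvd Nat.card_pos (Subgroup.index_dvd_card _)

theorem card_orbitSizes [Finite G] (hF : ∀ f : F → Subgroup G, ¬ Function.Injective f) (n : ℕ) :
    ∀ (U₀ : Submodule F V), CL ρ ⊤ n (fixSub ρ ⊤ U₀) →
      n + 1 ≤ Set.ncard {k | k ∈ orbitSizes ρ ∧ (fixSub ρ ⊤ U₀).index ≤ k} := by
  induction n with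
  | zero =>
    intro U₀ _
    obtain ⟨u, hu, h⟩ := exists_generic ρ U₀ hF
    rw [zero_add, Nat.one_le_iff_ne_zero, Ne, Set.ncard_eq_zero
      ((orbitSizes_finite ρ).subset fun k hk => hk.1)]
    rw [← Ne, ← Set.nonempty_iff_ne_empty]
    refine ⟨(fixSub ρ ⊤ U₀).index, ⟨u, ?_⟩, le_rfl⟩
    rw [orbitSizes_eq_index, h]
  | succ n ih =>
    rintro U₀ ⟨U, _, h1, h2⟩
    rw [fixSub_fixSub] at h1 h2
    have h3 := ih _ h2
    obtain ⟨u, hu, h⟩ := exists_generic ρ U₀ hF
    have hidx : (fixSub ρ ⊤ U₀).index < (fixSub ρ ⊤ (U₀ ⊔ U)).index :=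
      Subgroup.index_strictAnti h1
    have hsub : insert ((fixSub ρ ⊤ U₀).index)
        {k | k ∈ orbitSizes ρ ∧ (fixSub ρ ⊤ (U₀ ⊔ U)).index ≤ k} ⊆
        {k | k ∈ orbitSizes ρ ∧ (fixSub ρ ⊤ U₀).index ≤ k} := by
      intro k hk
      rcases hk with rfl | hk
      · refine ⟨⟨u, ?_⟩, le_rfl⟩
        rw [orbitSizes_eq_index, h]
      · exact ⟨hk.1, hidx.le.trans hk.2⟩
    have hfin : {k | k ∈ orbitSizes ρ ∧ (fixSub ρ ⊤ U₀).index ≤ k}.Finite :=
      (orbitSizes_finite ρ).subset fun k hk => hk.1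
    calc n + 1 + 1 ≤ Set.ncard {k | k ∈ orbitSizes ρ ∧ (fixSub ρ ⊤ (U₀ ⊔ U)).index ≤ k} + 1 := by
          omega
      _ = Set.ncard (insert ((fixSub ρ ⊤ U₀).index)
            {k | k ∈ orbitSizes ρ ∧ (fixSub ρ ⊤ (U₀ ⊔ U)).index ≤ k}) := by
          rw [Set.ncard_insert_of_notMem ?_ ((orbitSizes_finite ρ).subset fun k hk => hk.1)]
          intro hk
          exact absurd hk.2 (not_le.mpr hidx)
      _ ≤ _ := Set.ncard_le_ncard hsub hfin

/-- a chain of length `n` for some subgroup yields `n + 1` orbit sizes -/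
theorem succ_le_ncard_orbitSizes [Finite G] (hF : ∀ f : F → Subgroup G, ¬ Function.Injective f)
    {P : Subgroup G} {n : ℕ} (h : CL ρ ⊤ n P) : n + 1 ≤ Set.ncard (orbitSizes ρ) := by
  have h1 : fixSub ρ ⊤ (⊥ : Submodule F V) = ⊤ := by
    rw [eq_top_iff]
    intro g _
    refine ⟨trivial, fun w hw => ?_⟩
    rw [Submodule.mem_bot] at hw
    rw [hw, map_zero]
  have h2 : CL ρ (⊤ : Submodule F V) n (fixSub ρ ⊤ ⊥) := by
    rw [h1]
    exact CL.mono ρ le_top h
  refine (card_orbitSizes ρ hF n ⊥ h2).trans (Set.ncard_le_ncard ?_ (orbitSizes_finite ρ))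
  intro k hk
  exact hk.1

end Pool.Agent.Work.MP_518c18_al
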