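import Mathlib

set_option autoImplicit false

namespace Pool.Agent.Work.MP_518c18_al

open Finset

variable {F W : Type*} [Field F] [AddCommGroup W] [Module F W]

theorem geom_fixed {p : ℕ} {X : Module.End F W} (hX : X ^ p = 1)
    (hfix : ∀ w, X w = w → w = 0) : ∑ i ∈ range p, X ^ i = 0 := by
  ext w
  apply hfix
  have h := mul_geom_sum X p
  rw [hX, sub_self] at h
  have h2 := congrArg (fun T => T w) h
  simp only [LinearMap.zero_apply, Module.End.mul_apply, LinearMap.sub_apply,
    Module.End.one_apply] at h2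
  exact sub_eq_zero.mp h2

/-- an elementary abelian group of type (p,p) cannot act freely -/
theorem exists_fixed_of_pair {p : ℕ} [hp : Fact p.Prime] (hpF : (p : F) ≠ 0)
    {A B : Module.End F W} (hA : A ^ p = 1) (hB : B ^ p = 1) (hAB : Commute A B)
    (hfix : ∀ w, A w = w → w = 0) (hW : ∃ w : W, w ≠ 0) :
    ∃ j : ℕ, ∃ w : W, w ≠ 0 ∧ (B * A ^ j) w = w := by
  by_contra hcon
  push Not at hcon
  have h1 : ∀ j : ℕ, ∑ i ∈ range p, (B * A ^ j) ^ i = 0 := by
    intro j
    apply geom_fixed
    · rw [((hAB.symm).pow_right j).mul_pow, hB, ← pow_mul, mul_comm j p, pow_mul, hA, one_pow,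
        one_mul]
    · intro w hw
      by_contra hne
      exact hcon j w hne hw
  have h2 : ∑ j ∈ range p, ∑ i ∈ range p, (B * A ^ j) ^ i = 0 :=
    Finset.sum_eq_zero fun j _ => h1 j
  rw [Finset.sum_comm] at h2
  have h3 : ∀ i ∈ range p, i ≠ 0 → ∑ j ∈ range p, (B * A ^ j) ^ i = 0 := by
    intro i hi hi0
    have h4 : ∀ j, (B * A ^ j) ^ i = B ^ i * (A ^ i) ^ j := by
      intro j
      rw [((hAB.symm).pow_right j).mul_pow, ← pow_mul, ← pow_mul, mul_comm j i]
    simp_rw [h4]
    rw [← Finset.mul_sum, geom_fixed, mul_zero]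
    · rw [← pow_mul, mul_comm, pow_mul, hA, one_pow]
    · intro w hw
      apply hfix
      have hcop : Nat.Coprime i p := by
        rw [Nat.coprime_comm, hp.out.coprime_iff_not_dvd]
        intro hd
        exact absurd (Nat.le_of_dvd (Nat.pos_of_ne_zero hi0) hd) (not_le.mpr (mem_range.mp hi))
      -- i * k ≡ 1 mod p
      obtain ⟨k, _, hk⟩ := Nat.exists_mul_mod_eq_one_of_coprime hcop hp.out.one_lt
      have h5 : (A ^ i) ^ k = A := by
        rw [← pow_mul]
        have h6 := Nat.div_add_mod (i * k) p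
        rw [hk] at h6
        rw [← h6, pow_add, pow_mul, hA, one_pow, one_mul, pow_one]
      have h7 : ∀ m : ℕ, ((A ^ i) ^ m) w = w := by
        intro m
        induction m with
        | zero => simp
        | succ m ih => rw [pow_succ, Module.End.mul_apply, hw, ih]
      have := h7 k
      rwa [h5] at this
  rw [Finset.sum_eq_single_of_mem 0 (mem_range.mpr hp.out.pos) (fun i hi hi0 => h3 i hi hi0)] at h2
  obtain ⟨w, hw⟩ := hW
  have h8 := congrArg (fun T => T w) h2
  simp only [pow_zero, sum_const, card_range, LinearMap.smul_apply, Module.End.one_apply,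
    LinearMap.zero_apply] at h8
  rw [← Nat.cast_smul_eq_nsmul F] at h8
  rcases smul_eq_zero.mp h8 with h | h
  · exact hpF h
  · exact hw h

end Pool.Agent.Work.MP_518c18_al
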