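import Mathlib
import Pool.Agent.Work.MP_518c18_al.GenBy

set_option autoImplicit false

namespace Pool.Agent.Work.MP_518c18_al

open Subgroup

/-- a nontrivial normal subgroup of a finite p-group contains a central element of order p -/
theorem exists_central_of_order_p {p : ℕ} [Fact p.Prime] {R : Type*} [Group R] [Finite R]
    (hR : IsPGroup p R) (M : Subgroup R) [hM : M.Normal] (hne : M ≠ ⊥) :
    ∃ b ∈ M, b ∈ center R ∧ b ≠ 1 ∧ b ^ p = 1 := by
  -- the conjugation action of `R` on `M`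
  letI : MulAction R M := MulAction.compHom M (MulAut.conjNormal (H := M))
  have hsm : ∀ (g : R) (m : M), ((g • m : M) : R) = g * m * g⁻¹ := fun g m => by
    show (((MulAut.conjNormal g) m : M) : R) = _
    simp
  haveI : Nontrivial M := (nontrivial_iff_ne_bot M).mpr hne
  have hcard : p ∣ Nat.card M := by
    rcases (hR.to_subgroup M).card_eq_or_dvd with h | h
    · exfalso
      rw [Nat.card_eq_one_iff_unique] at h
      exact not_subsingleton M h.1
    · exact h
  have h1 : (1 : M) ∈ MulAction.fixedPoints R M := by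
    intro g
    apply Subtype.ext
    rw [hsm]
    simp
  obtain ⟨b, hb, hb1⟩ := hR.exists_fixed_point_of_prime_dvd_card_of_fixed_point M hcard h1
  have hbc : (b : R) ∈ center R := by
    rw [mem_center_iff]
    intro g
    have := congrArg Subtype.val (hb g)
    rw [hsm] at this
    exact mul_inv_eq_iff_eq_mul.mp this
  have hb1' : (b : R) ≠ 1 := fun h => hb1 (Subtype.ext h.symm)
  obtain ⟨k, hk⟩ := (IsPGroup.iff_orderOf.mp hR) (b : R)
  have hk0 : k ≠ 0 := by
    rintro rfl
    rw [pow_zero, orderOf_eq_one_iff] at hk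
    exact hb1' hk
  obtain ⟨j, rfl⟩ := Nat.exists_eq_succ_of_ne_zero hk0
  refine ⟨(b : R) ^ p ^ j, M.pow_mem b.2 _, (center R).pow_mem hbc _, ?_, ?_⟩
  · intro h
    have h2 := orderOf_dvd_of_pow_eq_one h
    rw [hk] at h2
    have h3 := (Nat.pow_dvd_pow_iff_le_right (Fact.out : p.Prime).one_lt).mp h2
    omega
  · rw [← pow_mul, ← pow_succ, ← hk]
    exact pow_orderOf_eq_one _

/-- if `N < M` are normal subgroups of a finite p-group `Q`, there is `x ∈ M \ N` central of
order `p` modulo `N`. -/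
theorem exists_central_mod {p : ℕ} [Fact p.Prime] {Q : Type*} [Group Q] [Finite Q]
    (hQ : IsPGroup p Q) (N M : Subgroup Q) [hN : N.Normal] [hM : M.Normal] (hne : ¬ M ≤ N) :
    ∃ x ∈ M, x ∉ N ∧ x ^ p ∈ N ∧ ∀ g, g * x * g⁻¹ * x⁻¹ ∈ N := by
  have hR : IsPGroup p (Q ⧸ N) := hQ.to_quotient N
  have hM' : (M.map (QuotientGroup.mk' N)).Normal :=
    hM.map _ (QuotientGroup.mk'_surjective N)
  have hne' : M.map (QuotientGroup.mk' N) ≠ ⊥ := by
    intro h
    apply hne
    intro m hm
    have : (QuotientGroup.mk' N) m ∈ (⊥ : Subgroup (Q ⧸ N)) := by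
      rw [← h]
      exact mem_map_of_mem _ hm
    rw [mem_bot] at this
    exact (QuotientGroup.eq_one_iff m).mp this
  obtain ⟨b, ⟨x, hx, rfl⟩, hb, hb1, hbp⟩ := exists_central_of_order_p hR _ hne'
  refine ⟨x, hx, ?_, ?_, ?_⟩
  · intro h
    exact hb1 ((QuotientGroup.eq_one_iff x).mpr h)
  · apply (QuotientGroup.eq_one_iff _).mp
    exact hbp
  · intro g
    apply (QuotientGroup.eq_one_iff _).mp
    have := (mem_center_iff.mp hb) (QuotientGroup.mk' N g)
    show (QuotientGroup.mk' N) (g * x * g⁻¹ * x⁻¹) = 1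
    rw [map_mul, map_mul, map_mul, this, map_inv, map_inv]
    group

/-- the alternative output -/
def HasPair (p : ℕ) (Q : Type*) [Group Q] : Prop :=
  ∃ z x : Q, z ∈ center Q ∧ z ≠ 1 ∧ z ^ p = 1 ∧ x ^ p = 1 ∧ x ∉ zpowers z ∧
    ∀ g, g * x * g⁻¹ * x⁻¹ ∈ zpowers z

theorem GenBy.of_hom {Q C : Type*} [Group Q] [Group C] [IsCyclic C] (f : Q →* C) :
    GenBy f.ker ⊤ 1 := by
  classical
  intro X hX _
  obtain ⟨⟨c, y, hy, rfl⟩, hc⟩ := (inferInstance : IsCyclic (X.map f)).exists_generator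
  refine ⟨{y}, by simp, le_antisymm (sup_le hX ?_) ?_⟩
  · rw [closure_le]
    simpa using hy
  · intro g hg
    obtain ⟨k, hk⟩ := mem_zpowers_iff.mp (hc ⟨f g, g, hg, rfl⟩)
    have hk' : (f y) ^ k = f g := congrArg Subtype.val hk
    have : g * (y ^ k)⁻¹ ∈ f.ker := by
      rw [MonoidHom.mem_ker, map_mul, map_inv, map_zpow, hk']
      simp
    have h2 : g = (g * (y ^ k)⁻¹) * y ^ k := by group
    rw [h2]
    refine mul_mem_sup this (zpow_mem (subset_closure ?_) _)
    simp

theorem GenBy.of_cyclic {Q : Type*} [Group Q] (A : Subgroup Q) [IsCyclic A] :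
    GenBy ⊥ A 1 := by
  classical
  intro X _ hXA
  haveI : IsCyclic X := by
    have := (inferInstance : IsCyclic (X.subgroupOf A))
    exact isCyclic_of_surjective _ (subgroupOfEquivOfLe hXA).surjective
  obtain ⟨g, hg⟩ := (inferInstance : IsCyclic X).exists_generator
  refine ⟨{(g : Q)}, by simp, ?_⟩
  rw [bot_sup_eq]
  apply le_antisymm
  · rw [closure_le]
    simp
  · intro x hx
    obtain ⟨k, hk⟩ := mem_zpowers_iff.mp (hg ⟨x, hx⟩)
    have : (g : Q) ^ k = x := congrArg Subtype.val hk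
    rw [← this]
    exact zpow_mem (subset_closure (by simp)) _

end Pool.Agent.Work.MP_518c18_al
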