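import Mathlib
import Pool.Agent.Work.MP_518c18_al.PGroupA

set_option autoImplicit false

namespace Pool.Agent.Work.MP_518c18_al

open Subgroup

/-- a finite abelian p-group whose elements of order p lie in one cyclic subgroup of order p is
cyclic -/
theorem isCyclic_of_socle {p : ℕ} [Fact p.Prime] {A : Type*} [CommGroup A] [Finite A]
    (hA : IsPGroup p A) (z : A) (hz : z ^ p = 1) (h : ∀ b : A, b ^ p = 1 → b ∈ zpowers z) :
    IsCyclic A := by
  obtain ⟨a, ha⟩ := Monoid.exists_orderOf_eq_exponent (Monoid.ExponentExists.of_finite (G := A))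
  obtain ⟨m, hm⟩ := (IsPGroup.iff_orderOf.mp hA) a
  rw [hm] at ha
  have hp : p.Prime := Fact.out
  -- z is in zpowers a or trivial group
  by_cases hm0 : m = 0
  · subst hm0
    have : ∀ b : A, b = 1 := by
      intro b
      have := Monoid.pow_exponent_eq_one b
      rw [← ha] at this
      simpa using this
    exact ⟨⟨1, fun b => by rw [this b]; exact mem_zpowers 1⟩⟩
  obtain ⟨l, rfl⟩ := Nat.exists_eq_succ_of_ne_zero hm0
  have hza : z ∈ zpowers a := by
    have h1 : (a ^ p ^ l) ^ p = 1 := by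
      rw [← pow_mul, ← pow_succ]
      rw [← hm]
      exact pow_orderOf_eq_one a
    have h2 := h _ h1
    have h3 : a ^ p ^ l ≠ 1 := by
      intro h4
      have h5 := orderOf_dvd_of_pow_eq_one h4
      rw [hm] at h5
      have h6 := (Nat.pow_dvd_pow_iff_le_right hp.one_lt).mp h5
      omega
    have hz1 : z ≠ 1 := by
      rintro rfl
      rw [zpowers_one_eq_bot, mem_bot] at h2
      exact h3 h2
    have hzo : orderOf z = p := orderOf_eq_prime hz hz1
    have hao : orderOf (a ^ p ^ l) = p := orderOf_eq_prime h1 h3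
    have h7 : zpowers (a ^ p ^ l) = zpowers z := by
      apply eq_of_le_of_card_ge
      · rw [zpowers_le]; exact h2
      · rw [Nat.card_zpowers, Nat.card_zpowers, hzo, hao]
    have h8 : z ∈ zpowers (a ^ p ^ l) := by rw [h7]; exact mem_zpowers z
    exact (zpowers_le.mpr (pow_mem (mem_zpowers a) _)) h8
  refine ⟨⟨a, ?_⟩⟩
  have key : ∀ k : ℕ, ∀ b : A, b ^ p ^ k = 1 → b ∈ zpowers a := by
    intro k
    induction k with
    | zero =>
      intro b hb
      rw [pow_zero, pow_one] at hb
      rw [hb]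
      exact one_mem _
    | succ k ih =>
      intro b hb
      have h1 : b ^ p ∈ zpowers a := by
        apply ih
        rw [← pow_mul, ← pow_succ']
        exact hb
      obtain ⟨j, hj⟩ := mem_zpowers_iff.mp h1
      have h2 : a ^ (j * (p ^ l : ℕ)) = 1 := by
        rw [zpow_mul, hj, zpow_natCast, ← pow_mul, ← pow_succ']
        rw [ha]
        exact Monoid.pow_exponent_eq_one b
      have h3 : ((p : ℤ)) ∣ j := by
        have h4 := orderOf_dvd_iff_zpow_eq_one.mpr h2
        rw [hm, pow_succ', Nat.cast_mul] at h4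
        have : ((p ^ l : ℕ) : ℤ) ≠ 0 := by
          have := hp.pos
          positivity
        exact Int.dvd_of_mul_dvd_mul_right this h4
      obtain ⟨i, rfl⟩ := h3
      have h5 : (b * (a ^ i)⁻¹) ^ p = 1 := by
        rw [mul_pow, inv_pow, ← zpow_natCast (a ^ i), ← zpow_mul, mul_comm i, hj]
        exact mul_inv_cancel _
      have h6 : b * (a ^ i)⁻¹ ∈ zpowers a := (zpowers_le.mpr hza) (h _ h5)
      have h7 : b = (b * (a ^ i)⁻¹) * a ^ i := by group
      rw [h7]
      exact mul_mem h6 (zpow_mem (mem_zpowers a) _)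
  intro b
  obtain ⟨k, hk⟩ := hA b
  exact key k b hk

theorem isCyclic_mulAut_of_card {p n : ℕ} [Fact p.Prime] {A : Type*} [Group A] [IsCyclic A]
    (hc : Nat.card A = p ^ n) (h : p ≠ 2 ∨ n ≤ 2) : IsCyclic (MulAut A) := by
  have e := IsCyclic.mulAutMulEquiv A
  rw [hc] at e
  have : IsCyclic (ZMod (p ^ n))ˣ := by
    by_cases hp2 : p = 2
    · subst hp2
      rw [ZMod.isCyclic_units_two_pow_iff]
      rcases h with h | h
      · exact absurd rfl h
      · exact h
    · exact ZMod.isCyclic_units_of_prime_pow p Fact.out hp2 n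
  exact isCyclic_of_surjective e.symm e.symm.surjective

/-- integers: solving `2 (i v + j') ≡ 0 mod 2^n` -/
theorem exists_sol {m : ℕ} {v j : ℤ} (hv : Odd v) : ∃ i : ℤ, ((2 : ℤ) ^ m) ∣ i * v + j := by
  have hcop : IsCoprime v ((2 : ℤ) ^ m) := by
    apply IsCoprime.pow_right
    rw [Int.isCoprime_iff_gcd_eq_one, Int.gcd_comm]
    exact Int.isCoprime_iff_gcd_eq_one.mp ((Int.prime_two.coprime_iff_not_dvd).mpr
      (by rwa [← even_iff_two_dvd, Int.not_even_iff_odd]))
  obtain ⟨x, y, hxy⟩ := hcop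
  refine ⟨-j * x, j * y, ?_⟩
  linear_combination (-j) * hxy


/-- The group of order-2 kernel computation for `p = 2`. -/
theorem hasPair_of_two {Q : Type*} [Group Q] [Finite Q] (hQ : IsPGroup 2 Q)
    (a : Q) (n : ℕ) (ha : orderOf a = 2 ^ (n + 2)) [hA : (zpowers a).Normal]
    (hcent : ∀ g : Q, g * a = a * g → g ∈ zpowers a)
    (x : Q) (hx : x ∉ zpowers a) (hx2 : x ^ 2 ∈ zpowers a)
    (hxg : ∀ g, g * x * g⁻¹ * x⁻¹ ∈ zpowers a)
    (hx4 : x * a ^ (2 ^ n) = a ^ (2 ^ n) * x) : HasPair 2 Q := by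
  have : Fact (Nat.Prime 2) := ⟨Nat.prime_two⟩
  have hord : ∀ t : ℤ, a ^ t = 1 ↔ (2 : ℤ) ^ (n + 2) ∣ t := by
    intro t
    rw [← orderOf_dvd_iff_zpow_eq_one, ha]
    push_cast
    rfl
  obtain ⟨k, hk⟩ := mem_zpowers_iff.mp (hA.conj_mem a (mem_zpowers a) x)
  -- conjugation by x on powers of a
  have hconj : ∀ t : ℤ, x * a ^ t * x⁻¹ = a ^ (k * t) := by
    intro t
    rw [zpow_mul, hk, conj_zpow]
  -- 4 ∣ k - 1
  have h4 : (4 : ℤ) ∣ k - 1 := by
    have h1 := hconj ((2 : ℤ) ^ n)
    have h2 : a ^ ((2 : ℤ) ^ n) = a ^ (2 ^ n : ℕ) := by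
      rw [← zpow_natCast]; push_cast; rfl
    rw [h2, hx4, mul_inv_cancel_right, ← h2] at h1
    have h3 : a ^ ((k - 1) * 2 ^ n) = 1 := by
      rw [sub_mul, one_mul, zpow_sub, ← h1, mul_inv_cancel]
    rw [hord, pow_add, mul_comm ((2 : ℤ) ^ n)] at h3
    have h5 := Int.dvd_of_mul_dvd_mul_right (by positivity) h3
    norm_num at h5
    exact h5
  obtain ⟨q, hq⟩ := h4
  obtain ⟨j, hj⟩ := mem_zpowers_iff.mp hx2
  -- k^2 ≡ 1
  have hk2 : (2 : ℤ) ^ (n + 2) ∣ (k - 1) * (k + 1) := by
    rw [← hord]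
    have h1 : x ^ 2 * a * (x ^ 2)⁻¹ = a := by
      rw [← hj]
      have : a ^ j * a = a * a ^ j := by rw [← zpow_add_one, ← zpow_one_add, add_comm]
      rw [this]; group
    have h2 : x ^ 2 * a * (x ^ 2)⁻¹ = a ^ (k * k) := by
      have h3 : x ^ 2 * a * (x ^ 2)⁻¹ = x * (x * a ^ (1 : ℤ) * x⁻¹) * x⁻¹ := by
        rw [zpow_one, pow_two]; group
      rw [h3, hconj, mul_one, hconj]
    have h3 : (k - 1) * (k + 1) = k * k - 1 := by ring
    rw [h3, zpow_sub, ← h2, h1, zpow_one, mul_inv_cancel]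
  -- (k+1) = 2 v, v odd
  obtain ⟨v, hv⟩ : ∃ v, k + 1 = 2 * v ∧ Odd v := ⟨2 * q + 1, by linarith, ⟨q, rfl⟩⟩
  obtain ⟨hkv, hvodd⟩ := hv
  have hcopv : ∀ m : ℕ, IsCoprime ((2 : ℤ) ^ m) v := by
    intro m
    apply IsCoprime.pow_left
    exact (Int.prime_two.coprime_iff_not_dvd).mpr
      (by rwa [← even_iff_two_dvd, Int.not_even_iff_odd])
  have hk1 : (2 : ℤ) ^ (n + 1) ∣ k - 1 := by
    rw [hkv, show (k - 1) * (2 * v) = ((k - 1) * v) * 2 by ring, show n + 2 = (n + 1) + 1 by ring,
      pow_succ (2 : ℤ) (n + 1)] at hk2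
    have h1 := Int.dvd_of_mul_dvd_mul_right (by norm_num) hk2
    exact (hcopv _).dvd_of_dvd_mul_right h1
  obtain ⟨w, hw⟩ := hk1
  have hwodd : Odd w := by
    by_contra h
    rw [Int.not_odd_iff_even] at h
    obtain ⟨w', hw'⟩ := h
    apply hx
    apply hcent
    have h1 : a ^ (k - 1) = 1 := by
      rw [hord]
      refine ⟨w', ?_⟩
      rw [hw, hw']
      ring
    have h2 := hconj 1
    rw [mul_one, zpow_one] at h2
    have h3 : a ^ k = a := by
      have : k = (k - 1) + 1 := by ring
      rw [this, zpow_add, h1, one_mul, zpow_one]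
    rw [h3] at h2
    exact mul_inv_eq_iff_eq_mul.mp h2
  -- j even
  have hjeven : Even j := by
    have h1 : x * a ^ j * x⁻¹ = a ^ j := by rw [hj]; group
    rw [hconj] at h1
    have h2 : a ^ (j * (k - 1)) = 1 := by
      rw [mul_sub, mul_one, zpow_sub, mul_comm j k, h1, mul_inv_cancel]
    rw [hord, hw, show j * (2 ^ (n + 1) * w) = (j * w) * 2 ^ (n + 1) by ring,
      show n + 2 = 1 + (n + 1) by ring, pow_add, pow_one] at h2
    have h3 := Int.dvd_of_mul_dvd_mul_right (by positivity) h2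
    rcases Int.prime_two.dvd_or_dvd h3 with h | h
    · exact even_iff_two_dvd.mpr h
    · exact absurd (even_iff_two_dvd.mpr h) (Int.not_even_iff_odd.mpr hwodd)
  obtain ⟨j', hj'⟩ := hjeven
  obtain ⟨i, hi⟩ := exists_sol (m := n + 1) (j := j') hvodd
  -- the involution y = x a^i
  set y := x * a ^ i with hy
  have hy2 : y ^ 2 = 1 := by
    have h1 : y ^ 2 = (x * a ^ i * x⁻¹) * x ^ 2 * a ^ i := by
      rw [hy, pow_two, pow_two]; group
    rw [h1, hconj, ← hj, ← zpow_add, ← zpow_add, hord]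
    obtain ⟨c, hc⟩ := hi
    refine ⟨c, ?_⟩
    have : k * i + j + i = 2 * (i * v + j') := by
      rw [hj']; linear_combination i * hkv
    rw [this, hc]
    ring
  have hyconj : ∀ t : ℤ, y * a ^ t * y⁻¹ = a ^ (k * t) := by
    intro t
    rw [← hconj, hy]
    have : a ^ i * a ^ t = a ^ t * a ^ i := by rw [← zpow_add, ← zpow_add, add_comm]
    calc x * a ^ i * a ^ t * (x * a ^ i)⁻¹ = x * (a ^ i * a ^ t) * (a ^ i)⁻¹ * x⁻¹ := by group
      _ = _ := by rw [this]; group
  -- central involution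
  have hane : zpowers a ≠ ⊥ := by
    rw [Ne, zpowers_eq_bot]
    intro h
    rw [h, orderOf_one] at ha
    have := Nat.one_lt_two_pow (n := n + 2) (by omega)
    omega
  obtain ⟨b, hbA, hbc, hb1, hb2⟩ := exists_central_of_order_p hQ (zpowers a) hane
  have huniq : ∀ c ∈ zpowers a, c ^ 2 = 1 → c ∈ zpowers b := by
    intro c hc hc2
    obtain ⟨s, hs⟩ := mem_zpowers_iff.mp hc
    obtain ⟨t, ht⟩ := mem_zpowers_iff.mp hbA
    have hhalf : ∀ s : ℤ, (a ^ s) ^ 2 = 1 → (2 : ℤ) ^ (n + 1) ∣ s := by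
      intro s hs
      rw [← zpow_natCast, ← zpow_mul, hord, show n + 2 = (n + 1) + 1 by ring, pow_succ] at hs
      exact Int.dvd_of_mul_dvd_mul_right (by norm_num) hs
    rw [← hs] at hc2
    rw [← ht] at hb2
    obtain ⟨s', hs'⟩ := hhalf s hc2
    obtain ⟨t', ht'⟩ := hhalf t hb2
    have ht'odd : Odd t' := by
      by_contra h
      rw [Int.not_odd_iff_even] at h
      obtain ⟨t'', ht''⟩ := h
      apply hb1
      rw [← ht, hord, ht', ht'']
      exact ⟨t'', by ring⟩
    rcases Int.even_or_odd s' with h | h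
    · obtain ⟨s'', hs''⟩ := h
      have : c = 1 := by
        rw [← hs, hord, hs', hs'']
        exact ⟨s'', by ring⟩
      rw [this]
      exact one_mem _
    · have : c = b := by
        rw [← hs, ← ht, ← mul_inv_eq_one, ← zpow_neg, ← zpow_add, hord, hs', ht']
        obtain ⟨s'', hs''⟩ := h
        obtain ⟨t'', ht''⟩ := ht'odd
        refine ⟨s'' - t'', ?_⟩
        rw [hs'', ht'']
        ring
      rw [this]
      exact mem_zpowers b
  have hyA : y ∉ zpowers a := by
    intro h
    apply hx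
    have : x = y * (a ^ i)⁻¹ := by rw [hy]; group
    rw [this]
    exact mul_mem h (inv_mem (zpow_mem (mem_zpowers a) _))
  refine ⟨b, y, hbc, hb1, hb2, hy2, fun h => hyA ((zpowers_le.mpr hbA) h), ?_⟩
  intro g
  have hcA : g * y * g⁻¹ * y⁻¹ ∈ zpowers a := by
    have h1 : g * y * g⁻¹ * y⁻¹ = (g * x * g⁻¹ * x⁻¹) *
        (x * ((g * a ^ i * g⁻¹) * (a ^ i)⁻¹) * x⁻¹) := by
      rw [hy]; group
    rw [h1]
    refine mul_mem (hxg g) (hA.conj_mem _ (mul_mem (hA.conj_mem _ ?_ g) (inv_mem ?_)) x)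
    · exact zpow_mem (mem_zpowers a) _
    · exact zpow_mem (mem_zpowers a) _
  apply huniq _ hcA
  obtain ⟨m, hm⟩ := mem_zpowers_iff.mp hcA
  have h1 : (a ^ m * y) ^ 2 = 1 := by
    rw [hm]
    have : g * y * g⁻¹ * y⁻¹ * y = g * y * g⁻¹ := by group
    rw [this, conj_pow, hy2]
    group
  have h2 : (a ^ m * y) ^ 2 = a ^ (m * (k + 1)) := by
    have : (a ^ m * y) ^ 2 = a ^ m * (y * a ^ m * y⁻¹) * y ^ 2 := by
      rw [pow_two, pow_two]; group
    rw [this, hyconj, hy2, mul_one, ← zpow_add]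
    congr 1
    ring
  rw [h2, hord, hkv, show m * (2 * v) = (m * v) * 2 by ring, show n + 2 = (n + 1) + 1 by ring,
    pow_succ] at h1
  have h3 := Int.dvd_of_mul_dvd_mul_right (by norm_num) h1
  have h4 := (hcopv _).dvd_of_dvd_mul_right h3
  obtain ⟨m', hm'⟩ := h4
  rw [← hm, ← zpow_natCast, ← zpow_mul, hord, hm']
  exact ⟨m', by push_cast; ring⟩


theorem genBy_two_or_hasPair {p : ℕ} [hp : Fact p.Prime] {Q : Type*} [Group Q] [Finite Q]
    (hQ : IsPGroup p Q) : GenBy (⊥ : Subgroup Q) ⊤ 2 ∨ HasPair p Q := by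
  classical
  -- a maximal normal abelian subgroup
  obtain ⟨A, ⟨hAn, hAc⟩, hmax⟩ := (Set.toFinite {A : Subgroup Q | A.Normal ∧
    ∀ a ∈ A, ∀ b ∈ A, a * b = b * a}).exists_maximal ⟨⊥, inferInstance, by
      intro a ha b hb
      rw [mem_bot] at ha hb
      rw [ha, hb]⟩
  -- self-centralizing
  have hcent : ∀ g : Q, (∀ a ∈ A, g * a = a * g) → g ∈ A := by
    by_contra hcon
    push Not at hcon
    obtain ⟨g, hg, hgA⟩ := hcon
    let C : Subgroup Q := centralizer (A : Set Q)
    have hCn : C.Normal := inferInstance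
    have hmemC : ∀ g, g ∈ C ↔ ∀ a ∈ A, a * g = g * a := fun g => mem_centralizer_iff
    have hnot : ¬ C ≤ A := fun h => hgA (h ((hmemC g).mpr fun a ha => (hg a ha).symm))
    obtain ⟨x, hxC, hxA, _, hxg⟩ := exists_central_mod hQ A C hnot
    have hxc := (hmemC x).mp hxC
    let B : Subgroup Q := A ⊔ zpowers x
    have hxB : x ∈ B := (le_sup_right : zpowers x ≤ B) (mem_zpowers x)
    have hAB : A ≤ B := le_sup_left
    have hBmem : ∀ b ∈ B, ∃ a ∈ A, ∃ k : ℤ, a * x ^ k = b := by
      intro b hb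
      obtain ⟨y, hy, z, hz, h⟩ := mem_sup_of_normal_left.mp hb
      obtain ⟨k, rfl⟩ := mem_zpowers_iff.mp hz
      exact ⟨y, hy, k, h⟩
    have hBn : B.Normal := by
      refine ⟨fun b hb g => ?_⟩
      have h1 : B ≤ B.comap (MulAut.conj g).toMonoidHom := by
        refine sup_le ?_ ?_
        · intro a ha
          exact hAB (hAn.conj_mem a ha g)
        · rw [zpowers_le]
          show g * x * g⁻¹ ∈ B
          have : g * x * g⁻¹ = (g * x * g⁻¹ * x⁻¹) * x := by group
          rw [this]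
          exact mul_mem (hAB (hxg g)) hxB
      exact h1 hb
    have hBc : ∀ a ∈ B, ∀ b ∈ B, a * b = b * a := by
      intro b hb b' hb'
      obtain ⟨a, ha, k, rfl⟩ := hBmem b hb
      obtain ⟨a', ha', k', rfl⟩ := hBmem b' hb'
      have h1 : Commute a a' := hAc a ha a' ha'
      have h2 : Commute a x := hxc a ha
      have h3 : Commute a' x := hxc a' ha'
      have h4 : Commute (a * x ^ k) (a' * x ^ k') :=
        Commute.mul_left (Commute.mul_right h1 (h2.zpow_right k'))
          (Commute.mul_right (h3.symm.zpow_left k) ((Commute.refl x).zpow_zpow k k'))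
      exact h4
    exact hxA (hmax ⟨hBn, hBc⟩ hAB hxB)
  by_cases hcyc : IsCyclic A
  swap
  · right
    have hAne : A ≠ ⊥ := by
      rintro rfl
      exact hcyc inferInstance
    obtain ⟨z, hzA, hzc, hz1, hzp⟩ := exists_central_of_order_p hQ A hAne
    have hzn : (zpowers z).Normal := by
      refine ⟨fun b hb g => ?_⟩
      obtain ⟨k, rfl⟩ := mem_zpowers_iff.mp hb
      have : g * z ^ k * g⁻¹ = z ^ k := by
        rw [mem_center_iff.mp ((center Q).zpow_mem hzc k) g]
        group
      rw [this]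
      exact hb
    let Om : Subgroup Q :=
      { carrier := {a | a ∈ A ∧ a ^ p = 1}
        one_mem' := ⟨A.one_mem, one_pow _⟩
        mul_mem' := by
          rintro a b ⟨ha, ha'⟩ ⟨hb, hb'⟩
          refine ⟨A.mul_mem ha hb, ?_⟩
          have : Commute a b := hAc a ha b hb
          rw [this.mul_pow, ha', hb', one_mul]
        inv_mem' := by
          rintro a ⟨ha, ha'⟩
          exact ⟨A.inv_mem ha, by rw [inv_pow, ha', inv_one]⟩ }
    have hOn : Om.Normal := by
      refine ⟨fun b hb g => ⟨hAn.conj_mem b hb.1 g, ?_⟩⟩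
      rw [conj_pow, hb.2]
      group
    have hnot : ¬ Om ≤ zpowers z := by
      intro hle
      apply hcyc
      let _ : CommGroup A := { (inferInstance : Group A) with
        mul_comm := fun a b => Subtype.ext (hAc a a.2 b b.2) }
      refine isCyclic_of_socle (hQ.to_subgroup A) ⟨z, hzA⟩ (Subtype.ext hzp) ?_
      intro b hb
      obtain ⟨k, hk⟩ := mem_zpowers_iff.mp (hle ⟨b.2, congrArg Subtype.val hb⟩)
      exact mem_zpowers_iff.mpr ⟨k, Subtype.ext hk⟩
    obtain ⟨x, hxO, hxz, _, hxg⟩ := exists_central_mod hQ (zpowers z) Om hnot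
    exact ⟨z, x, hzc, hz1, hzp, hxO.2, hxz, hxg⟩
  · obtain ⟨n, hn⟩ := (IsPGroup.iff_card.mp (hQ.to_subgroup A))
    have hker : ∀ g, g ∈ (MulAut.conjNormal (H := A)).ker ↔ g ∈ A := by
      intro g
      rw [MonoidHom.mem_ker]
      constructor
      · intro h
        apply hcent
        intro a ha
        have := congrArg Subtype.val (DFunLike.congr_fun h ⟨a, ha⟩)
        simp only [MulAut.conjNormal_apply, MulAut.one_apply] at this
        exact mul_inv_eq_iff_eq_mul.mp this
      · intro h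
        ext a
        simp only [MulAut.conjNormal_apply, MulAut.one_apply]
        rw [hAc g h a a.2]
        group
    by_cases hcase : p ≠ 2 ∨ n ≤ 2
    · left
      have := isCyclic_mulAut_of_card hn hcase
      have h1 := GenBy.of_hom (MulAut.conjNormal (H := A))
      have h2 : (MulAut.conjNormal (H := A)).ker = A := by
        ext g; exact hker g
      rw [h2] at h1
      exact GenBy.trans bot_le le_top le_normalizer_of_normal (GenBy.of_cyclic A) h1
    · push Not at hcase
      obtain ⟨rfl, hn2⟩ := hcase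
      obtain ⟨m, rfl⟩ : ∃ m, n = m + 2 := ⟨n - 2, by omega⟩
      obtain ⟨⟨a, haA⟩, ha⟩ := hcyc.exists_generator
      have hAz : A = zpowers a := by
        apply le_antisymm
        · intro b hb
          obtain ⟨k, hk⟩ := mem_zpowers_iff.mp (ha ⟨b, hb⟩)
          exact mem_zpowers_iff.mpr ⟨k, congrArg Subtype.val hk⟩
        · rw [zpowers_le]; exact haA
      have hord : orderOf a = 2 ^ (m + 2) := by
        rw [← hn, hAz, Nat.card_zpowers]
      subst hAz
      set b := a ^ 2 ^ m with hb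
      have hBn : (zpowers b).Normal := by
        refine ⟨fun c hc g => ?_⟩
        obtain ⟨k, rfl⟩ := mem_zpowers_iff.mp hc
        obtain ⟨l, hl⟩ := mem_zpowers_iff.mp (hAn.conj_mem a (mem_zpowers a) g)
        refine mem_zpowers_iff.mpr ⟨l * k, ?_⟩
        rw [← conj_zpow, hb, ← conj_pow, ← hl, ← zpow_natCast, ← zpow_natCast, ← zpow_mul,
          ← zpow_mul, ← zpow_mul]
        congr 1
        ring
      have hBcard : Nat.card (zpowers b) = 2 ^ 2 := by
        rw [Nat.card_zpowers, hb, orderOf_pow, hord]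
        have : Nat.gcd (2 ^ (m + 2)) (2 ^ m) = 2 ^ m := by
          rw [Nat.gcd_eq_right]
          exact pow_dvd_pow 2 (by omega)
        rw [this, pow_add, Nat.mul_div_cancel_left _ (by positivity)]
      have hcycB : IsCyclic (MulAut (zpowers b)) :=
        isCyclic_mulAut_of_card hBcard (Or.inr le_rfl)
      have hker4 : ∀ g, g ∈ (MulAut.conjNormal (H := zpowers b)).ker ↔ g * b = b * g := by
        intro g
        rw [MonoidHom.mem_ker]
        constructor
        · intro h
          have := congrArg Subtype.val (DFunLike.congr_fun h ⟨b, mem_zpowers b⟩)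
          simp only [MulAut.conjNormal_apply, MulAut.one_apply] at this
          exact mul_inv_eq_iff_eq_mul.mp this
        · intro h
          ext ⟨c, hc⟩
          obtain ⟨k, rfl⟩ := mem_zpowers_iff.mp hc
          simp only [MulAut.conjNormal_apply, MulAut.one_apply]
          have h2 : Commute g (b ^ k) := (show Commute g b from h).zpow_right k
          rw [h2.eq]
          group
      by_cases hle : (MulAut.conjNormal (H := zpowers b)).ker ≤ zpowers a
      · left
        have h1 := GenBy.of_hom (MulAut.conjNormal (H := zpowers b))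
        have h2 : (MulAut.conjNormal (H := zpowers b)).ker = zpowers a := by
          apply le_antisymm hle
          rw [zpowers_le, hker4]
          exact (Commute.refl a).pow_right _
        rw [h2] at h1
        exact GenBy.trans bot_le le_top le_normalizer_of_normal (GenBy.of_cyclic (zpowers a)) h1
      · right
        obtain ⟨x, hx4, hxA, hx2, hxg⟩ := exists_central_mod hQ (zpowers a) _ hle
        rw [hker4] at hx4
        refine hasPair_of_two hQ a m hord ?_ x hxA hx2 hxg hx4
        intro g hg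
        apply hcent
        intro c hc
        obtain ⟨k, rfl⟩ := mem_zpowers_iff.mp hc
        exact (show Commute g a from hg).zpow_right k

end Pool.Agent.Work.MP_518c18_al
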