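import Mathlib
import Pool.Agent.Work.MP_518c18_al.GenBy
import Pool.Agent.Work.MP_518c18_al.Chain
import Pool.Agent.Work.MP_518c18_al.PGroupB
import Pool.Agent.Work.MP_518c18_al.LinAlg

set_option autoImplicit false

namespace Pool.Agent.Work.MP_518c18_al

open Subgroup

/-- pull back a subgroup of `Q` along `f : P →* Q` and push it to `G` -/
def pull {G Q : Type*} [Group G] [Group Q] {P : Subgroup G} (f : P →* Q) (K : Subgroup Q) :
    Subgroup G := (K.comap f).map P.subtype

theorem mem_pull {G Q : Type*} [Group G] [Group Q] {P : Subgroup G} (f : P →* Q)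
    (K : Subgroup Q) {g : G} : g ∈ pull f K ↔ ∃ h : g ∈ P, f ⟨g, h⟩ ∈ K := by
  constructor
  · rintro ⟨⟨x, hx⟩, hxK, rfl⟩
    exact ⟨hx, hxK⟩
  · rintro ⟨h, hK⟩
    exact ⟨⟨g, h⟩, hK, rfl⟩

theorem GenBy.pull {G Q : Type*} [Group G] [Group Q] {P : Subgroup G} (f : P →* Q)
    (hf : Function.Surjective f) {K T : Subgroup Q} {r : ℕ} (h : GenBy K T r) :
    GenBy (pull f K) (pull f T) r := by
  classical
  intro X hKX hXT
  have hXP : X ≤ P := fun x hx => ((mem_pull f T).mp (hXT hx)).1
  have hK' : K ≤ (X.subgroupOf P).map f := by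
    intro k hk
    obtain ⟨y, rfl⟩ := hf k
    exact ⟨y, hKX ((mem_pull f K).mpr ⟨y.2, hk⟩), rfl⟩
  have hT' : (X.subgroupOf P).map f ≤ T := by
    rintro _ ⟨x, hx, rfl⟩
    obtain ⟨_, h⟩ := (mem_pull f T).mp (hXT hx)
    exact h
  obtain ⟨s, hs, hsX⟩ := h ((X.subgroupOf P).map f) hK' hT'
  · have hlift : ∀ y : s, ∃ x : P, (x : G) ∈ X ∧ f x = y := by
      intro y
      have : (y : Q) ∈ (X.subgroupOf P).map f := by
        rw [← hsX]
        exact (le_sup_right : _ ≤ K ⊔ closure (s : Set Q)) (subset_closure y.2)
      obtain ⟨x, hx, hxy⟩ := this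
      exact ⟨x, hx, hxy⟩
    choose l hlX hl using hlift
    refine ⟨Finset.univ.image fun y : s => (l y : G), ?_, ?_⟩
    · exact Finset.card_image_le.trans (by simpa using hs)
    · apply le_antisymm
      · refine sup_le hKX ?_
        rw [closure_le]
        intro x hx
        simp only [Finset.coe_image, Finset.coe_univ, Set.image_univ, Set.mem_range] at hx
        obtain ⟨y, rfl⟩ := hx
        exact hlX y
      · intro x hx
        have hxP := hXP hx
        set Y := Pool.Agent.Work.MP_518c18_al.pull f K ⊔
          closure ((Finset.univ.image fun y : s => (l y : G) : Finset G) : Set G) with hY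
        have h1 : f ⟨x, hxP⟩ ∈ K ⊔ closure (s : Set Q) := by
          rw [hsX]
          exact ⟨⟨x, hxP⟩, hx, rfl⟩
        have h2 : K ⊔ closure (s : Set Q) ≤ (Y.subgroupOf P).map f := by
          refine sup_le ?_ ?_
          · intro k hk
            obtain ⟨y, rfl⟩ := hf k
            refine ⟨y, ?_, rfl⟩
            rw [SetLike.mem_coe, mem_subgroupOf]
            exact (le_sup_left : _ ≤ Y) ((mem_pull f K).mpr ⟨y.2, hk⟩)
          · rw [closure_le]
            intro y hy
            refine ⟨l ⟨y, hy⟩, ?_, hl ⟨y, hy⟩⟩
            rw [SetLike.mem_coe, mem_subgroupOf]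
            refine (le_sup_right : _ ≤ Y) (subset_closure ?_)
            simp only [Finset.coe_image, Finset.coe_univ, Set.image_univ, Set.mem_range]
            exact ⟨_, rfl⟩
        obtain ⟨y, hy, hyx⟩ := h2 h1
        have h3 : (x * (y : G)⁻¹) ∈ Y := by
          refine (le_sup_left : _ ≤ Y) ((mem_pull f K).mpr ⟨P.mul_mem hxP (P.inv_mem y.2), ?_⟩)
          have : (⟨x * (y : G)⁻¹, P.mul_mem hxP (P.inv_mem y.2)⟩ : P) = ⟨x, hxP⟩ * y⁻¹ := rfl
          rw [this, map_mul, map_inv, hyx, mul_inv_cancel]
          exact one_mem _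
        have h4 : (y : G) ∈ Y := hy
        have := mul_mem h3 h4
        simpa using this


section main

variable {G F V : Type*} [Group G] [Field F] [AddCommGroup V] [Module F V]
  (ρ : Representation F G V)

/-- sum of the operators of `P` -/
noncomputable def avg (P : Subgroup G) [Fintype P] : V →ₗ[F] V := ∑ g : P, ρ g

theorem avg_apply (P : Subgroup G) [Fintype P] (v : V) : avg ρ P v = ∑ g : P, ρ g v := by
  simp [avg, LinearMap.sum_apply]

theorem rho_avg (P : Subgroup G) [Fintype P] {g : G} (hg : g ∈ P) (v : V) :
    ρ g (avg ρ P v) = avg ρ P v := by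
  rw [avg_apply, map_sum]
  have : ∀ h : P, ρ g (ρ h v) = ρ ((⟨g, hg⟩ * h : P) : G) v := by
    intro h
    rw [← Module.End.mul_apply, ← map_mul]
    rfl
  simp_rw [this]
  exact Fintype.sum_equiv (Equiv.mulLeft (⟨g, hg⟩ : P)) _ _ (fun h => rfl)

theorem avg_rho (P : Subgroup G) [Fintype P] {g : G} (hg : g ∈ P) (v : V) :
    avg ρ P (ρ g v) = avg ρ P v := by
  rw [avg_apply, avg_apply]
  have : ∀ h : P, ρ h (ρ g v) = ρ ((h * ⟨g, hg⟩ : P) : G) v := by
    intro h
    rw [← Module.End.mul_apply, ← map_mul]
    rfl
  simp_rw [this]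
  exact Fintype.sum_equiv (Equiv.mulRight (⟨g, hg⟩ : P)) _ _ (fun h => rfl)

theorem avg_of_fixed (P : Subgroup G) [Fintype P] {v : V} (h : ∀ g ∈ P, ρ g v = v) :
    avg ρ P v = (Fintype.card P : F) • v := by
  rw [avg_apply]
  have : ∀ g : P, ρ g v = v := fun g => h g g.2
  simp_rw [this]
  rw [Finset.sum_const, Finset.card_univ, Nat.cast_smul_eq_nsmul]

theorem pgroup_main [Finite G] [FiniteDimensional F V] {p : ℕ} [hp : Fact p.Prime]
    (hpF : (p : F) ≠ 0) (N : ℕ) :
    ∀ P : Subgroup G, IsPGroup p P → ∀ W : Submodule F V, (∀ g ∈ P, ∀ w ∈ W, ρ g w ∈ W) →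
      fixSub ρ P W < P → Nat.card P + Module.finrank F W ≤ N →
      ∃ a, 1 ≤ a ∧ CL ρ W a P ∧ GenBy (fixSub ρ P W) P (3 * a - 1) := by
  classical
  induction N with
  | zero =>
    intro P _ W _ _ hN
    have : 0 < Nat.card P := Nat.card_pos
    omega
  | succ N ih =>
    intro P hP W hW hlt hN
    have : Fintype P := Fintype.ofFinite P
    have hcardF : (Fintype.card P : F) ≠ 0 := by
      obtain ⟨n, hn⟩ := IsPGroup.iff_card.mp hP
      rw [← Nat.card_eq_fintype_card, hn]
      push_cast
      exact pow_ne_zero _ hpF
    by_cases hfix : ∃ w ∈ W, w ≠ 0 ∧ ∀ g ∈ P, ρ g w = w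
    · -- there are fixed vectors
      obtain ⟨w₀, hw₀, hw₀0, hw₀fix⟩ := hfix
      set W' : Submodule F V := W ⊓ LinearMap.ker (avg ρ P) with hW'
      have hW'lt : W' < W := by
        refine lt_of_le_of_ne inf_le_left ?_
        intro h
        have : w₀ ∈ W' := by rw [h]; exact hw₀
        have h1 : avg ρ P w₀ = 0 := this.2
        rw [avg_of_fixed ρ P hw₀fix] at h1
        rcases smul_eq_zero.mp h1 with h | h
        · exact hcardF h
        · exact hw₀0 h
      have hstab : ∀ g ∈ P, ∀ w ∈ W', ρ g w ∈ W' := by
        rintro g hg w ⟨hw, hw'⟩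
        refine ⟨hW g hg w hw, ?_⟩
        show avg ρ P (ρ g w) = 0
        rw [avg_rho ρ P hg]
        exact hw'
      have heq : fixSub ρ P W' = fixSub ρ P W := by
        apply le_antisymm
        · intro g hg
          refine ⟨hg.1, fun w hw => ?_⟩
          have havgW : avg ρ P w ∈ W := by
            rw [avg_apply]
            exact Submodule.sum_mem _ fun h _ => hW h h.2 w hw
          have h1 : (Fintype.card P : F) • w - avg ρ P w ∈ W' := by
            refine ⟨W.sub_mem (W.smul_mem _ hw) havgW, ?_⟩
            show avg ρ P _ = 0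
            rw [map_sub, map_smul, avg_of_fixed ρ P (fun g hg => rho_avg ρ P hg w), sub_self]
          have h2 := hg.2 _ h1
          rw [map_sub, map_smul, rho_avg ρ P hg.1 w, sub_left_inj] at h2
          have h3 := congrArg (fun x => (Fintype.card P : F)⁻¹ • x) h2
          simpa [smul_smul, inv_mul_cancel₀ hcardF] using h3
        · exact fixSub_mono ρ le_rfl hW'lt.le
      obtain ⟨a, ha, h1, h2⟩ := ih P hP W' hstab (by rw [heq]; exact hlt)
        (by have := Submodule.finrank_lt_finrank_of_lt hW'lt; omega)
      rw [heq] at h2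
      exact ⟨a, ha, CL.monoW ρ hW'lt.le h1, h2⟩
    push Not at hfix
    by_cases hred : ∃ W₁ : Submodule F V, W₁ < W ∧ W₁ ≠ ⊥ ∧ ∀ g ∈ P, ∀ w ∈ W₁, ρ g w ∈ W₁
    · obtain ⟨W₁, hW₁lt, hW₁ne, hW₁st⟩ := hred
      set K := fixSub ρ P W₁ with hK
      have hKlt : K < P := by
        refine lt_of_le_of_ne (fixSub_le _ _ _) ?_
        intro h
        obtain ⟨w, hw, hw0⟩ := Submodule.exists_mem_ne_zero_of_ne_bot hW₁ne
        obtain ⟨g, hg, hgw⟩ := hfix w (hW₁lt.le hw) hw0
        have : g ∈ K := by rw [h]; exact hg
        exact hgw (this.2 w hw)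
      obtain ⟨a, ha, h1, h2⟩ := ih P hP W₁ hW₁st hKlt
        (by have := Submodule.finrank_lt_finrank_of_lt hW₁lt; omega)
      have hfK : fixSub ρ K W = fixSub ρ P W := fixSub_fixSub_of_le ρ P hW₁lt.le
      by_cases hKC : fixSub ρ K W = K
      · rw [hfK] at hKC
        exact ⟨a, ha, CL.monoW ρ hW₁lt.le h1, by rw [hKC]; exact h2⟩
      · have hcard : Nat.card K < Nat.card P :=
          lt_of_not_ge fun h => hKlt.ne (Subgroup.eq_of_le_of_card_ge hKlt.le h)
        obtain ⟨b, hb, h3, h4⟩ := ih K (hP.to_le hKlt.le) W (fun g hg w hw => hW g (hKlt.le hg) w hw)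
          (lt_of_le_of_ne (fixSub_le _ _ _) hKC) (by omega)
        rw [hfK] at h4
        refine ⟨a + b, by omega, CL.trans ρ hW₁lt.le h1 h3, ?_⟩
        have h5 := GenBy.trans (hfK ▸ fixSub_le ρ K W) hKlt.le
          (le_normalizer_fixSub ρ P W₁ hW₁st) h4 h2
        exact h5.mono (by omega)
    · -- irreducible case
      push Not at hred
      set C := fixSub ρ P W with hC
      have hCP : C ≤ P := fixSub_le _ _ _
      have hCn : (C.subgroupOf P).Normal := (normal_subgroupOf_iff_le_normalizer hCP).mpr
        (le_normalizer_fixSub ρ P W hW)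
      let f : P →* P ⧸ C.subgroupOf P := QuotientGroup.mk' (C.subgroupOf P)
      have hf : Function.Surjective f := QuotientGroup.mk'_surjective _
      have hf1 : ∀ g : P, f g = 1 ↔ (g : G) ∈ C := fun g =>
        (QuotientGroup.eq_one_iff g).trans mem_subgroupOf
      have hQ : IsPGroup p (P ⧸ C.subgroupOf P) := hP.to_quotient _
      have hpullbot : pull f ⊥ = C := by
        ext g
        rw [mem_pull]
        constructor
        · rintro ⟨h, h1⟩
          exact (hf1 ⟨g, h⟩).mp (mem_bot.mp h1)
        · intro h
          exact ⟨hCP h, mem_bot.mpr ((hf1 ⟨g, hCP h⟩).mpr h)⟩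
      have hpulltop : pull f ⊤ = P := by
        ext g
        rw [mem_pull]
        exact ⟨fun h => h.1, fun h => ⟨h, trivial⟩⟩
      rcases genBy_two_or_hasPair hQ with h2 | ⟨zb, xb, hzc, hz1, hzp, hxp, hxz, hxg⟩
      · have h3 := GenBy.pull f hf h2
        rw [hpullbot, hpulltop] at h3
        exact ⟨1, le_rfl, ⟨W, le_rfl, hlt, trivial⟩, h3⟩
      · obtain ⟨z, rfl⟩ := hf zb
        obtain ⟨x, rfl⟩ := hf xb
        -- the operators on W
        let R : P →* Module.End F W :=
          { toFun := fun g => (ρ g).restrict (fun w hw => hW g g.2 w hw)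
            map_one' := by
              ext w
              simp
            map_mul' := by
              intro g h
              ext w
              simp }
        have hRv : ∀ (g : P) (w : W), ((R g w : W) : V) = ρ g w := fun g w => rfl
        have hR1 : ∀ g : P, f g = 1 ↔ R g = 1 := by
          intro g
          rw [hf1]
          constructor
          · intro h
            ext w
            rw [hRv]
            exact h.2 w w.2
          · intro h
            refine ⟨g.2, fun w hw => ?_⟩
            have := congrArg (fun T : Module.End F W => ((T ⟨w, hw⟩ : W) : V)) h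
            exact this
        have hRf : ∀ g h : P, f g = f h → R g = R h := by
          intro g h hgh
          have h1 : f (g * h⁻¹) = 1 := by rw [map_mul, map_inv, hgh, mul_inv_cancel]
          rw [hR1, map_mul] at h1
          have h2 : R g = (R g * R h⁻¹) * R h := by
            rw [mul_assoc, ← map_mul, inv_mul_cancel, map_one, mul_one]
          rw [h2, h1, one_mul]
        have hzcomm : ∀ g : P, R (z * g) = R (g * z) := by
          intro g
          apply hRf
          rw [map_mul, map_mul]
          exact (mem_center_iff.mp hzc (f g)).symm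
        have hAp : (R z) ^ p = 1 := by
          rw [← map_pow, ← hR1, map_pow, hzp]
        have hBp : (R x) ^ p = 1 := by
          rw [← map_pow, ← hR1, map_pow, hxp]
        have hAB : Commute (R z) (R x) := by
          show R z * R x = R x * R z
          rw [← map_mul, ← map_mul, hzcomm]
        have hWex : ∃ w : W, w ≠ 0 := by
          by_contra hcon
          push Not at hcon
          apply hlt.ne
          apply le_antisymm hCP
          intro g hg
          refine ⟨hg, fun w hw => ?_⟩
          have : w = 0 := congrArg Subtype.val (hcon ⟨w, hw⟩)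
          rw [this, map_zero]
        have hfixA : ∀ w : W, R z w = w → w = 0 := by
          let Wz : Submodule F V :=
            { carrier := {w | w ∈ W ∧ ρ z w = w}
              zero_mem' := ⟨W.zero_mem, map_zero _⟩
              add_mem' := by
                rintro a b ⟨ha, ha'⟩ ⟨hb, hb'⟩
                exact ⟨W.add_mem ha hb, by rw [map_add, ha', hb']⟩
              smul_mem' := by
                rintro c a ⟨ha, ha'⟩
                exact ⟨W.smul_mem c ha, by rw [map_smul, ha']⟩ }
          have hWzle : Wz ≤ W := fun w hw => hw.1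
          have hWzst : ∀ g ∈ P, ∀ w ∈ Wz, ρ g w ∈ Wz := by
            rintro g hg w ⟨hw, hw'⟩
            refine ⟨hW g hg w hw, ?_⟩
            have h1 := congrArg (fun T : Module.End F W => ((T ⟨w, hw⟩ : W) : V))
              (hzcomm ⟨g, hg⟩)
            simp only [map_mul, Module.End.mul_apply, hRv] at h1
            rw [h1, hw']
          intro w hw
          by_contra hne
          have hWzne : Wz ≠ ⊥ := by
            intro h
            have h1 : (w : V) ∈ Wz := ⟨w.2, congrArg Subtype.val hw⟩
            rw [h, Submodule.mem_bot] at h1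
            exact hne (Subtype.ext h1)
          have hWzeq : Wz = W := by
            by_contra hne2
            obtain ⟨g, hg, w, hw, hgw⟩ := hred Wz (lt_of_le_of_ne hWzle hne2) hWzne
            exact hgw (hWzst g hg w hw)
          apply hz1
          rw [hf1]
          refine ⟨z.2, fun w hw => ?_⟩
          rw [← hWzeq] at hw
          exact hw.2
        obtain ⟨j, w₀, hw₀, hw₀fix⟩ := exists_fixed_of_pair hpF hAp hBp hAB hfixA hWex
        set x' : P := x * z ^ j with hx'
        have hRx' : R x' = R x * R z ^ j := by rw [hx', map_mul, map_pow]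
        have hfx' : f x' ≠ 1 := by
          intro h
          rw [hx', map_mul, map_pow] at h
          apply hxz
          rw [mul_eq_one_iff_eq_inv] at h
          rw [h]
          exact inv_mem (pow_mem (mem_zpowers _) _)
        let WD : Submodule F V :=
          { carrier := {w | w ∈ W ∧ ρ x' w = w}
            zero_mem' := ⟨W.zero_mem, map_zero _⟩
            add_mem' := by
              rintro a b ⟨ha, ha'⟩ ⟨hb, hb'⟩
              exact ⟨W.add_mem ha hb, by rw [map_add, ha', hb']⟩
            smul_mem' := by
              rintro c a ⟨ha, ha'⟩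
              exact ⟨W.smul_mem c ha, by rw [map_smul, ha']⟩ }
        have hWDle : WD ≤ W := fun w hw => hw.1
        have hw₀D : (w₀ : V) ∈ WD := by
          refine ⟨w₀.2, ?_⟩
          rw [← hRv, hRx', hw₀fix]
        have hw₀0 : (w₀ : V) ≠ 0 := fun h => hw₀ (Subtype.ext h)
        have hWDlt : WD < W := by
          refine lt_of_le_of_ne hWDle ?_
          intro h
          apply hfx'
          rw [hf1]
          refine ⟨x'.2, fun w hw => ?_⟩
          rw [← h] at hw
          exact hw.2
        -- the hom φ
        let φ : (P ⧸ C.subgroupOf P) →* zpowers (f z) :=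
          { toFun := fun q => ⟨q * f x * q⁻¹ * (f x)⁻¹, hxg q⟩
            map_one' := by
              apply Subtype.ext
              simp
            map_mul' := by
              intro q r
              apply Subtype.ext
              show q * r * f x * (q * r)⁻¹ * (f x)⁻¹ =
                (q * f x * q⁻¹ * (f x)⁻¹) * (r * f x * r⁻¹ * (f x)⁻¹)
              obtain ⟨k, hk⟩ := mem_zpowers_iff.mp (hxg r)
              have hcen : r * f x * r⁻¹ * (f x)⁻¹ ∈ center (P ⧸ C.subgroupOf P) := by
                rw [← hk]
                exact zpow_mem hzc k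
              have h1 : q * r * f x * (q * r)⁻¹ * (f x)⁻¹ =
                  q * (r * f x * r⁻¹ * (f x)⁻¹) * (f x * q⁻¹ * (f x)⁻¹) := by group
              rw [h1, mem_center_iff.mp hcen q, mul_assoc,
                ← mem_center_iff.mp hcen (q * (f x * q⁻¹ * (f x)⁻¹))]
              group }
        have hφ : ∀ q, q ∈ φ.ker ↔ q * f x = f x * q := by
          intro q
          rw [MonoidHom.mem_ker]
          constructor
          · intro h
            have h1 : q * f x * q⁻¹ * (f x)⁻¹ = 1 := congrArg Subtype.val h
            have h2 := mul_inv_eq_one.mp h1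
            exact mul_inv_eq_iff_eq_mul.mp h2
          · intro h
            apply Subtype.ext
            show q * f x * q⁻¹ * (f x)⁻¹ = 1
            rw [h]
            group
        set T := pull f φ.ker with hT
        have hTP : T ≤ P := fun g hg => ((mem_pull f _).mp hg).1
        have hTmem : ∀ g : P, (g : G) ∈ T ↔ f g * f x = f x * f g := by
          intro g
          rw [hT, mem_pull]
          constructor
          · rintro ⟨h, h1⟩
            exact (hφ _).mp h1
          · intro h
            exact ⟨g.2, (hφ _).mpr h⟩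
        have hGT : GenBy T P 1 := by
          have := GenBy.pull f hf (GenBy.of_hom φ)
          rwa [hpulltop] at this
        have hTn : P ≤ normalizer (T : Set G) := by
          have key : ∀ g ∈ P, ∀ t ∈ T, g * t * g⁻¹ ∈ T := by
            intro g hg t ht
            obtain ⟨htP, ht'⟩ := (mem_pull f _).mp ht
            refine (mem_pull f _).mpr ⟨P.mul_mem (P.mul_mem hg htP) (P.inv_mem hg), ?_⟩
            exact (inferInstance : (φ.ker).Normal).conj_mem _ ht' (f ⟨g, hg⟩)
          intro g hg
          rw [mem_normalizer_iff]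
          intro t
          constructor
          · exact key g hg t
          · intro h
            have := key g⁻¹ (P.inv_mem hg) _ h
            simpa [mul_assoc] using this
        have hCT : C ≤ T := by
          intro g hg
          have h1 : f ⟨g, hCP hg⟩ = 1 := (hf1 _).mpr hg
          exact (hTmem ⟨g, hCP hg⟩).mpr (by rw [h1, one_mul, mul_one])
        have hTx' : ∀ g : P, (g : G) ∈ T → R (x' * g) = R (g * x') := by
          intro g hg
          apply hRf
          have h1 := (hTmem g).mp hg
          have h2 := mem_center_iff.mp ((center _).pow_mem hzc j) (f g)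
          rw [hx', map_mul, map_mul, map_mul, map_mul, map_pow]
          calc f x * f z ^ j * f g = f x * (f z ^ j * f g) := by group
            _ = f x * f g * f z ^ j := by rw [← h2]; group
            _ = _ := by rw [← h1]; group
        have hWDst : ∀ g ∈ T, ∀ w ∈ WD, ρ g w ∈ WD := by
          rintro g hg w ⟨hw, hw'⟩
          refine ⟨hW g (hTP hg) w hw, ?_⟩
          have h1 := congrArg (fun T : Module.End F W => ((T ⟨w, hw⟩ : W) : V))
            (hTx' ⟨g, hTP hg⟩ hg)
          simp only [map_mul, Module.End.mul_apply, hRv] at h1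
          rw [h1, hw']
        have hzT : (z : G) ∈ T := (hTmem z).mpr (mem_center_iff.mp hzc (f x)).symm
        set K := fixSub ρ T WD with hK
        have hKT : K < T := by
          refine lt_of_le_of_ne (fixSub_le _ _ _) ?_
          intro h
          have h1 : (z : G) ∈ K := by rw [h]; exact hzT
          apply hw₀
          apply hfixA
          apply Subtype.ext
          rw [hRv]
          exact h1.2 _ hw₀D
        obtain ⟨a, ha, h1, h2⟩ := ih T (hP.to_le hTP) WD hWDst hKT (by
          have h3 := Submodule.finrank_lt_finrank_of_lt hWDlt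
          have h4 : Nat.card T ≤ Nat.card P := Nat.card_mono (Set.toFinite _) hTP
          omega)
        have hKP : K < P := by
          refine lt_of_le_of_ne (hKT.le.trans hTP) ?_
          intro h
          obtain ⟨g, hg, hgw⟩ := hfix w₀ w₀.2 hw₀0
          have : g ∈ K := by rw [h]; exact hg
          exact hgw (this.2 _ hw₀D)
        have hcard : Nat.card K < Nat.card P :=
          lt_of_not_ge fun h => hKP.ne (Subgroup.eq_of_le_of_card_ge hKP.le h)
        have hfK : fixSub ρ K W = C := by
          rw [hK, fixSub_fixSub_of_le ρ T hWDle]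
          apply le_antisymm
          · exact fixSub_mono ρ hTP le_rfl
          · intro g hg
            exact ⟨hCT hg, hg.2⟩
        have hx'K : (x' : G) ∈ K := by
          refine ⟨(hTmem x').mpr ?_, fun w hw => hw.2⟩
          have h2 := mem_center_iff.mp ((center _).pow_mem hzc j) (f x)
          rw [hx', map_mul, map_pow]
          calc f x * f z ^ j * f x = f x * (f z ^ j * f x) := by group
            _ = _ := by rw [← h2]
        have hKlt : fixSub ρ K W < K := by
          refine lt_of_le_of_ne (fixSub_le _ _ _) ?_
          intro h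
          rw [hfK] at h
          rw [← h, ← hf1] at hx'K
          exact hfx' hx'K
        obtain ⟨b, hb, h3, h4⟩ := ih K (hP.to_le hKP.le) W
          (fun g hg w hw => hW g (hKP.le hg) w hw) hKlt (by omega)
        rw [hfK] at h4
        refine ⟨a + b, by omega, CL.mono ρ hTP (CL.trans ρ hWDle h1 h3), ?_⟩
        have h5 := GenBy.trans (hfK ▸ fixSub_le ρ K W) hKT.le
          (le_normalizer_fixSub ρ T WD hWDst) h4 h2
        have h6 := GenBy.trans hCT hTP hTn h5 hGT
        exact h6.mono (by omega)

end main

end Pool.Agent.Work.MP_518c18_al
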