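import Mathlib
import Pool.Agent.Work.MP_518c18_al.PGroupA

set_option autoImplicit false

namespace Pool.Agent.Work.MP_518c18_al

open Subgroup

/-- a maximal subgroup of a finite p-group is normal with cyclic quotient of order `p` -/
theorem coatom_pgroup {p : ℕ} [hp : Fact p.Prime] {S : Type*} [Group S] [Finite S]
    (hS : IsPGroup p S) {M : Subgroup S} (hM : IsCoatom M) :
    M.Normal ∧ (∀ x, x ^ p ∈ M) ∧
      (∀ x, x ∉ M → (∀ k : ℤ, x ^ k ∈ M → (p : ℤ) ∣ k) ∧ ∀ y, ∃ k : ℤ, y * x ^ k ∈ M) := by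
  have hnil : Group.IsNilpotent S := hS.isNilpotent
  have hn : M.Normal := NormalizerCondition.normal_of_coatom M
    (Group.normalizerCondition_of_isNilpotent) hM
  have hQ : IsPGroup p (S ⧸ M) := hS.to_quotient M
  have hne : (⊤ : Subgroup (S ⧸ M)) ≠ ⊥ := by
    intro h
    apply hM.1
    rw [eq_top_iff]
    intro x _
    have : (QuotientGroup.mk x : S ⧸ M) ∈ (⊤ : Subgroup (S ⧸ M)) := trivial
    rw [h, mem_bot] at this
    exact (QuotientGroup.eq_one_iff x).mp this
  obtain ⟨b, _, _, hb1, hbp⟩ := exists_central_of_order_p hQ ⊤ hne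
  -- every nontrivial subgroup of `S ⧸ M` is everything
  have hsimple : ∀ K : Subgroup (S ⧸ M), K ≠ ⊥ → K = ⊤ := by
    intro K hK
    have hle : M ≤ K.comap (QuotientGroup.mk' M) := by
      intro m hm
      show (QuotientGroup.mk' M) m ∈ K
      have : (QuotientGroup.mk' M) m = 1 := (QuotientGroup.eq_one_iff m).mpr hm
      rw [this]
      exact one_mem _
    have hlt : M < K.comap (QuotientGroup.mk' M) := by
      refine lt_of_le_of_ne hle ?_
      intro h
      apply hK
      rw [eq_bot_iff]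
      intro k hk
      obtain ⟨x, rfl⟩ := QuotientGroup.mk'_surjective M k
      have h2 : x ∈ K.comap (QuotientGroup.mk' M) := hk
      rw [← h] at h2
      rw [mem_bot]
      exact (QuotientGroup.eq_one_iff x).mpr h2
    have htop := hM.2 _ hlt
    rw [eq_top_iff]
    intro k _
    obtain ⟨x, rfl⟩ := QuotientGroup.mk'_surjective M k
    have : x ∈ K.comap (QuotientGroup.mk' M) := by rw [htop]; trivial
    exact this
  have hgen : ∀ c : S ⧸ M, c ≠ 1 → zpowers c = ⊤ := by
    intro c hc
    apply hsimple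
    rwa [Ne, zpowers_eq_bot]
  have hcard : Nat.card (S ⧸ M) = p := by
    have h1 : orderOf b = p := orderOf_eq_prime hbp hb1
    rw [← h1, ← Nat.card_zpowers, hgen b hb1]
    exact Subgroup.card_top.symm
  refine ⟨hn, ?_, ?_⟩
  · intro x
    rw [← QuotientGroup.eq_one_iff]
    rw [QuotientGroup.mk_pow, ← hcard]
    exact pow_card_eq_one'
  · intro x hx
    have hx1 : (QuotientGroup.mk x : S ⧸ M) ≠ 1 := fun h => hx ((QuotientGroup.eq_one_iff x).mp h)
    have hord : orderOf (QuotientGroup.mk x : S ⧸ M) = p := by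
      rw [← Nat.card_zpowers, hgen _ hx1, Subgroup.card_top, hcard]
    refine ⟨?_, ?_⟩
    · intro k hk
      rw [← hord, orderOf_dvd_iff_zpow_eq_one, ← QuotientGroup.mk_zpow]
      exact (QuotientGroup.eq_one_iff _).mpr hk
    · intro y
      have : (QuotientGroup.mk y⁻¹ : S ⧸ M) ∈ zpowers (QuotientGroup.mk x : S ⧸ M) := by
        rw [hgen _ hx1]; trivial
      obtain ⟨k, hk⟩ := mem_zpowers_iff.mp this
      refine ⟨k, ?_⟩
      rw [← QuotientGroup.eq_one_iff, QuotientGroup.mk_mul, QuotientGroup.mk_zpow, hk,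
        QuotientGroup.mk_inv, mul_inv_cancel]

/-- If `N` is a non-Frattini normal subgroup of a finite p-group `S` generated by `r` elements
then `r ≥ 1` and `S` is generated modulo `N` by `r - 1` elements. -/
theorem pgroup_drop {p : ℕ} [hp : Fact p.Prime] {S : Type*} [Group S] [Finite S]
    (hS : IsPGroup p S) (N S₀ : Subgroup S) (hNS : N ⊔ S₀ = ⊤) (hS₀ : S₀ ≠ ⊤)
    (s : Finset S) (hs : closure (s : Set S) = ⊤) :
    ∃ s' : Finset S, s'.card + 1 ≤ s.card ∧ N ⊔ closure (s' : Set S) = ⊤ := by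
  classical
  obtain ⟨M, hM, hSM⟩ := (eq_top_or_exists_le_coatom S₀).resolve_left hS₀
  obtain ⟨hMn, hMp, hMx⟩ := coatom_pgroup hS hM
  have hNM : ¬ N ≤ M := by
    intro h
    apply hM.1
    rw [eq_top_iff, ← hNS]
    exact sup_le h hSM
  have hx : ∃ x ∈ s, x ∉ M := by
    by_contra hcon
    push Not at hcon
    apply hM.1
    rw [eq_top_iff, ← hs, closure_le]
    exact hcon
  obtain ⟨x, hxs, hxM⟩ := hx
  obtain ⟨hxk, hxy⟩ := hMx x hxM
  choose k hk using hxy
  refine ⟨(s.erase x).image fun y => y * x ^ (k y), ?_, ?_⟩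
  · have h1 : ((s.erase x).image fun y => y * x ^ (k y)).card ≤ (s.erase x).card :=
      Finset.card_image_le
    have h2 := Finset.card_erase_add_one hxs
    omega
  · by_contra hcon
    obtain ⟨M', hM', hle⟩ := (eq_top_or_exists_le_coatom _).resolve_left hcon
    obtain ⟨hMn', hMp', hMx'⟩ := coatom_pgroup hS hM'
    have hNM' : N ≤ M' := le_sup_left.trans hle
    -- S = ⟨x⟩ (M ⊓ M')
    set D := M ⊓ M' with hD
    have hDn : D.Normal := inferInstance
    have hyD : ∀ y ∈ s, y ≠ x → y * x ^ (k y) ∈ D := by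
      intro y hy hyx
      refine ⟨hk y, ?_⟩
      apply hle
      refine (le_sup_right : _ ≤ N ⊔ _) (subset_closure ?_)
      simp only [Finset.coe_image, Set.mem_image, Finset.mem_coe, Finset.mem_erase]
      exact ⟨y, ⟨hyx, hy⟩, rfl⟩
    have htop : D ⊔ zpowers x = ⊤ := by
      rw [eq_top_iff, ← hs, closure_le]
      intro y hy
      by_cases hyx : y = x
      · rw [hyx]
        exact (le_sup_right : zpowers x ≤ D ⊔ zpowers x) (mem_zpowers x)
      · have h1 : y = (y * x ^ (k y)) * (x ^ (k y))⁻¹ := by group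
        rw [SetLike.mem_coe, h1]
        exact mul_mem ((le_sup_left : D ≤ _) (hyD y hy hyx))
          (inv_mem ((le_sup_right : zpowers x ≤ D ⊔ zpowers x) (zpow_mem (mem_zpowers x) _)))
    have hMM' : M ≤ M' := by
      intro m hm
      have : m ∈ D ⊔ zpowers x := by rw [htop]; trivial
      obtain ⟨d, hd, z, hz, rfl⟩ := mem_sup_of_normal_left.mp this
      obtain ⟨l, rfl⟩ := mem_zpowers_iff.mp hz
      have h1 : x ^ l ∈ M := by
        have := M.mul_mem (M.inv_mem hd.1) hm
        simpa using this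
      obtain ⟨l', rfl⟩ := hxk l h1
      have h2 : x ^ ((p : ℤ) * l') ∈ M' := by
        rw [zpow_mul, zpow_natCast]
        exact zpow_mem (hMp' x) _
      exact mul_mem hd.2 h2
    have hMeq : M = M' := by
      by_contra hne
      exact hM'.1 (hM.2 M' (lt_of_le_of_ne hMM' hne))
    exact hNM (hMeq ▸ hNM')


/-! ### complements of an abelian normal subgroup -/

section compl

variable {H : Type*} [Group H]

/-- `K` is a complement of `N` -/
def IsCo (N K : Subgroup H) : Prop := N ⊓ K = ⊥ ∧ N ⊔ K = ⊤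

theorem IsCo.unique {N K : Subgroup H} (h : IsCo N K) {a b : H} (ha : a ∈ K) (hb : b ∈ K)
    (hab : a * b⁻¹ ∈ N) : a = b := by
  have : a * b⁻¹ ∈ N ⊓ K := ⟨hab, K.mul_mem ha (K.inv_mem hb)⟩
  rw [h.1, mem_bot] at this
  exact mul_inv_eq_one.mp this

/-- the projection to the complement -/
theorem IsCo.exists_proj {N K : Subgroup H} [hN : N.Normal] (h : IsCo N K) :
    ∃ κ : H →* H, (∀ x, κ x ∈ K) ∧ (∀ x, κ x * x⁻¹ ∈ N) ∧ (∀ x ∈ K, κ x = x) := by
  have hex : ∀ x : H, ∃ k ∈ K, k * x⁻¹ ∈ N := by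
    intro x
    have : x ∈ N ⊔ K := by rw [h.2]; trivial
    obtain ⟨n, hn, k, hk, rfl⟩ := mem_sup_of_normal_left.mp this
    refine ⟨k, hk, ?_⟩
    have : k * (n * k)⁻¹ = n⁻¹ := by group
    rw [this]
    exact inv_mem hn
  choose κ hκ hκN using hex
  refine ⟨{ toFun := κ, map_one' := ?_, map_mul' := ?_ }, hκ, hκN, ?_⟩
  · apply h.unique (hκ 1) (one_mem K)
    have := hκN 1
    simpa using this
  · intro x y
    apply h.unique (hκ _) (mul_mem (hκ x) (hκ y))
    have h1 : κ (x * y) * (κ x * κ y)⁻¹ = (κ (x * y) * (x * y)⁻¹) *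
        (x * (κ y * y⁻¹)⁻¹ * x⁻¹) * (κ x * x⁻¹)⁻¹ := by group
    rw [h1]
    exact mul_mem (mul_mem (hκN _) (hN.conj_mem _ (inv_mem (hκN y)) x)) (inv_mem (hκN x))
  · intro x hx
    exact h.unique (hκ x) hx (hκN x)

/-- Averaging: two complements having the same intersection with a subgroup `S ≥ N` of index
coprime to `|N|` are conjugate under `N`. -/
theorem IsCo.conj [Finite H] {N K K' S : Subgroup H} [hN : N.Normal]
    (hNc : ∀ a ∈ N, ∀ b ∈ N, a * b = b * a)
    (h : IsCo N K) (h' : IsCo N K') (hNS : N ≤ S) (hcop : Nat.Coprime S.index (Nat.card N))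
    (hS : ∀ x ∈ S, x ∈ K ↔ x ∈ K') :
    ∃ n ∈ N, ∀ x, x ∈ K' ↔ n⁻¹ * x * n ∈ K := by
  classical
  obtain ⟨κ, hκ, hκN, hκK⟩ := h.exists_proj
  obtain ⟨κ', hκ', hκN', hκK'⟩ := h'.exists_proj
  let : CommGroup N := { (inferInstance : Group N) with
        mul_comm := fun a b => Subtype.ext (hNc a a.2 b b.2) }
  let : Fintype (H ⧸ S) := Fintype.ofFinite _
  -- delta
  let δ : H → N := fun x => ⟨κ' x * (κ x)⁻¹, by
    have : κ' x * (κ x)⁻¹ = (κ' x * x⁻¹) * (κ x * x⁻¹)⁻¹ := by group
    rw [this]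
    exact mul_mem (hκN' x) (inv_mem (hκN x))⟩
  have hδ : ∀ x, (δ x : H) = κ' x * (κ x)⁻¹ := fun x => rfl
  -- conjugation action of `x` on `N` equals that of `κ' x` and `κ x`
  have hact : ∀ (x k : H), k * x⁻¹ ∈ N → ∀ n ∈ N, k * n * k⁻¹ = x * n * x⁻¹ := by
    intro x k hk n hn
    have h1 : k * n * k⁻¹ = (k * x⁻¹) * (x * n * x⁻¹) * (k * x⁻¹)⁻¹ := by group
    rw [h1, hNc _ hk _ (hN.conj_mem n hn x)]
    group
  have hδmul : ∀ x y, δ (x * y) = MulAut.conjNormal x (δ y) * δ x := by
    intro x y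
    apply Subtype.ext
    rw [coe_mul, MulAut.conjNormal_apply, ← hact x (κ' x) (hκN' x) _ (δ y).2, hδ, hδ, hδ, map_mul,
      map_mul]
    group
  have hδS : ∀ x ∈ S, δ x = 1 := by
    intro x hx
    apply Subtype.ext
    rw [hδ, coe_one, mul_inv_eq_one]
    have h1 : κ x ∈ S := by
      have := mul_mem (hNS (hκN x)) hx
      simpa using this
    have h2 : κ' x ∈ S := by
      have := mul_mem (hNS (hκN' x)) hx
      simpa using this
    have h3 : κ' x ∈ K := (hS _ h2).mpr (hκ' x)
    exact h.unique h3 (hκ x) (δ x).2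
  -- descend to the quotient
  let δq : H ⧸ S → N := Quotient.lift δ (by
    intro a b hab
    have h1 : a⁻¹ * b ∈ S := QuotientGroup.leftRel_apply.mp hab
    have h2 : b = a * (a⁻¹ * b) := by group
    rw [h2, hδmul, hδS _ h1, map_one, one_mul])
  have hδq : ∀ x : H, δq (QuotientGroup.mk x) = δ x := fun x => rfl
  set n₀ : N := ∏ q : H ⧸ S, δq q with hn₀
  have hkey : ∀ g : H, n₀ = MulAut.conjNormal g n₀ * δ g ^ S.index := by
    intro g
    have h1 : ∏ q : H ⧸ S, δq (g • q) = n₀ :=
      Fintype.prod_equiv (MulAction.toPerm g) _ _ (fun q => rfl)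
    have h2 : ∀ q : H ⧸ S, δq (g • q) = MulAut.conjNormal g (δq q) * δ g := by
      rintro ⟨x⟩
      exact hδmul g x
    simp_rw [h2] at h1
    rw [Finset.prod_mul_distrib, Finset.prod_const, Finset.card_univ] at h1
    have h3 : MulAut.conjNormal g n₀ = ∏ q : H ⧸ S, MulAut.conjNormal g (δq q) := by
      rw [hn₀]
      exact map_prod (MulAut.conjNormal g) _ _
    rw [h3, S.index_eq_card, Nat.card_eq_fintype_card]
    exact h1.symm
  -- choose `m'` with `index * m' ≡ 1 mod |N|`
  obtain ⟨m', hm'⟩ : ∃ m' : ℕ, ∀ n : N, n ^ (S.index * m') = n := by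
    by_cases hN1 : Nat.card N = 1
    · refine ⟨0, fun n => ?_⟩
      have := (Nat.card_eq_one_iff_unique.mp hN1).1
      exact Subsingleton.elim _ _
    · have hN2 : 1 < Nat.card N := by
        have : 0 < Nat.card N := Nat.card_pos
        omega
      obtain ⟨m', _, hm'⟩ := Nat.exists_mul_mod_eq_one_of_coprime hcop hN2
      refine ⟨m', fun n => ?_⟩
      have h6 := Nat.div_add_mod (S.index * m') (Nat.card N)
      rw [hm'] at h6
      rw [← h6, pow_add, pow_mul, pow_card_eq_one', one_pow, one_mul, pow_one]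
  set n₁ : N := n₀ ^ m' with hn₁
  have hδ2 : ∀ g : H, δ g = (MulAut.conjNormal g n₁)⁻¹ * n₁ := by
    intro g
    have h1 := hkey g
    have h2 : δ g ^ S.index = (MulAut.conjNormal g n₀)⁻¹ * n₀ := eq_inv_mul_of_mul_eq h1.symm
    have h3 : δ g = (δ g ^ S.index) ^ m' := by rw [← pow_mul, hm']
    have h4 : MulAut.conjNormal g n₁ = (MulAut.conjNormal g n₀) ^ m' := map_pow _ _ _
    rw [h3, h2, mul_pow, inv_pow, h4]
  have hκκ : ∀ g, κ' g = n₁ * κ g * (n₁ : H)⁻¹ := by
    intro g
    have h1 : κ' g = (δ g : H) * κ g := by rw [hδ]; group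
    have h2 : (δ g : H) = (g * n₁ * g⁻¹)⁻¹ * n₁ := by
      rw [hδ2 g]
      simp [mul_assoc]
    have h3 : (g * (n₁ : H) * g⁻¹)⁻¹ * n₁ = n₁ * (g * (n₁ : H) * g⁻¹)⁻¹ :=
      hNc _ (inv_mem (hN.conj_mem _ n₁.2 g)) _ n₁.2
    rw [h1, h2, h3, ← hact g (κ g) (hκN g) _ n₁.2]
    group
  refine ⟨n₁, n₁.2, fun x => ⟨fun hx => ?_, fun hx => ?_⟩⟩
  · have h1 := hκκ x
    rw [hκK' x hx] at h1
    have h2 : (n₁ : H)⁻¹ * x * n₁ = κ x := by
      conv_lhs => rw [h1]
      group
    rw [h2]
    exact hκ x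
  · have h1 := hκκ ((n₁ : H)⁻¹ * x * n₁)
    rw [hκK _ hx] at h1
    have h2 : x = κ' ((n₁ : H)⁻¹ * x * n₁) := by rw [h1]; group
    rw [h2]
    exact hκ' _


/-- counting complements -/
theorem count_complements [Finite H] {N S : Subgroup H} [hN : N.Normal]
    (hNc : ∀ a ∈ N, ∀ b ∈ N, a * b = b * a) (hNne : N ≠ ⊥)
    (hNS : N ≤ S) (hcop : Nat.Coprime S.index (Nat.card N)) {k d : ℕ}
    (g : Fin k → H)
    (hg : ∀ n : Fin k → N, IsCo N (closure (Set.range fun i => g i * (n i : H))))
    (t : Fin d → H) (ht : N ⊔ closure (Set.range t) = S) : k ≤ d + 1 := by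
  classical
  let CC := {K : Subgroup H // IsCo N K}
  let Φ : (Fin k → N) → CC := fun n => ⟨closure (Set.range fun i => g i * (n i : H)), hg n⟩
  have hΦ : Function.Injective Φ := by
    intro n n' hnn
    have h1 : closure (Set.range fun i => g i * (n i : H)) =
        closure (Set.range fun i => g i * (n' i : H)) := congrArg Subtype.val hnn
    funext i
    have h2 : g i * (n i : H) ∈ closure (Set.range fun i => g i * (n i : H)) :=
      subset_closure ⟨i, rfl⟩
    have h3 : g i * (n' i : H) ∈ closure (Set.range fun i => g i * (n i : H)) := by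
      rw [h1]
      exact subset_closure ⟨i, rfl⟩
    have h4 := (hg n).unique h2 h3 (by
      have : g i * (n i : H) * (g i * (n' i : H))⁻¹ = g i * ((n i : H) * (n' i : H)⁻¹) * (g i)⁻¹ := by
        group
      rw [this]
      exact hN.conj_mem _ (mul_mem (n i).2 (inv_mem (n' i).2)) _)
    exact Subtype.ext (mul_left_cancel h4)
  -- the map to `Fin d → N`
  have hex : ∀ (K : CC) (j : Fin d), ∃ m : N, t j * (m : H) ∈ K.1 := by
    rintro ⟨K, hK⟩ j
    have : t j ∈ K ⊔ N := by rw [sup_comm, hK.2]; trivial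
    obtain ⟨x, hx, n, hn, h⟩ := mem_sup_of_normal_right.mp this
    refine ⟨⟨n⁻¹, inv_mem hn⟩, ?_⟩
    show t j * n⁻¹ ∈ K
    rw [← h]
    simpa using hx
  choose Ψ hΨ using hex
  have hint : ∀ K K' : CC, Ψ K = Ψ K' → ∀ x ∈ S, x ∈ K.1 → x ∈ K'.1 := by
    intro K K' hKK x hxS hxK
    have h1 : S ≤ N ⊔ closure (Set.range fun j => t j * (Ψ K j : H)) := by
      rw [← ht]
      refine sup_le le_sup_left ?_
      rw [closure_le]
      rintro _ ⟨j, rfl⟩
      have h2 : t j = (t j * (Ψ K j : H)) * (Ψ K j : H)⁻¹ := by group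
      rw [SetLike.mem_coe, h2]
      exact mul_mem ((le_sup_right : _ ≤ N ⊔ _) (subset_closure ⟨j, rfl⟩))
        ((le_sup_left : N ≤ _) (inv_mem (Ψ K j).2))
    obtain ⟨n, hn, y, hy, rfl⟩ := mem_sup_of_normal_left.mp (h1 hxS)
    have h3 : ∀ L : CC, Ψ L = Ψ K → closure (Set.range fun j => t j * (Ψ K j : H)) ≤ L.1 := by
      intro L hL
      rw [closure_le]
      rintro _ ⟨j, rfl⟩
      show t j * (Ψ K j : H) ∈ L.1
      rw [← hL]
      exact hΨ L j
    have hyK := h3 K rfl hy
    have h4 : n * y = y := K.2.unique hxK hyK (by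
      have : n * y * y⁻¹ = n := by group
      rw [this]; exact hn)
    rw [h4]
    exact h3 K' hKK.symm hy
  by_cases hCC : Nonempty CC
  swap
  · exact absurd ⟨Φ fun _ => 1⟩ hCC
  let base : (Fin d → N) → CC := Function.invFun Ψ
  have hbase : ∀ K, Ψ (base (Ψ K)) = Ψ K := fun K => Function.invFun_eq ⟨K, rfl⟩
  have hconj : ∀ K : CC, ∃ n : N, ∀ x, x ∈ K.1 ↔ (n : H)⁻¹ * x * n ∈ (base (Ψ K)).1 := by
    intro K
    obtain ⟨n, hn, h⟩ := IsCo.conj hNc (base (Ψ K)).2 K.2 hNS hcop
      (fun x hx => ⟨hint _ _ (hbase K) x hx, hint _ _ (hbase K).symm x hx⟩)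
    exact ⟨⟨n, hn⟩, h⟩
  choose ν hν using hconj
  let Θ : CC → (Fin d → N) × N := fun K => (Ψ K, ν K)
  have hΘ : Function.Injective Θ := by
    intro K K' h
    have h1 : Ψ K = Ψ K' := congrArg Prod.fst h
    have h2 : ν K = ν K' := congrArg Prod.snd h
    apply Subtype.ext
    ext x
    rw [hν K, hν K', h1, h2]
  have h1 : Nat.card (Fin k → N) ≤ Nat.card ((Fin d → N) × N) :=
    Nat.card_le_card_of_injective (Θ ∘ Φ) (hΘ.comp hΦ)
  rw [Nat.card_prod, Nat.card_fun, Nat.card_fun, Nat.card_fin, Nat.card_fin, ← pow_succ] at h1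
  have h2 : 1 < Nat.card N := by
    have h3 : Nontrivial N := (nontrivial_iff_ne_bot N).mpr hNne
    exact Finite.one_lt_card
  exact (Nat.pow_le_pow_iff_right h2).mp h1

end compl

/-- Let `R` be a solvable normal subgroup of the finite group `H`, and suppose that all
p-subgroups of `H` (for all primes p) are generated by at most `r` elements.  If `M > r` and `H` is
generated modulo `R` by at most `M` elements, then `H` is generated by at most `M` elements. -/
theorem radical_gen.{u} (m : ℕ) : ∀ (H : Type u) [Group H] [Finite H], Nat.card H ≤ m →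
    ∀ (R : Subgroup H), R.Normal → Group.IsSolvable R → ∀ r M : ℕ, r + 1 ≤ M →
    (∀ p : ℕ, p.Prime → ∀ P : Subgroup H, IsPGroup p P →
      ∃ s : Finset H, s.card ≤ r ∧ closure (s : Set H) = P) →
    (∃ t : Finset H, t.card ≤ M ∧ R ⊔ closure (t : Set H) = ⊤) →
    ∃ s : Finset H, s.card ≤ M ∧ closure (s : Set H) = ⊤ := by
  classical
  induction m with
  | zero =>
    intro H _ _ hm
    have : 0 < Nat.card H := Nat.card_pos
    omega
  | succ m ih =>
    intro H _ _ hm R hRn hsolv r M hrM hr ht₀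
    by_cases hR : R = ⊥
    · obtain ⟨t, ht, ht'⟩ := ht₀
      rw [hR, bot_sup_eq] at ht'
      exact ⟨t, ht, ht'⟩
    obtain ⟨t₀, ht₀, ht₀R⟩ := ht₀
    -- minimal normal subgroup
    obtain ⟨N, ⟨hNn, hNne, hNR⟩, hmin⟩ := (Set.toFinite {N : Subgroup H | N.Normal ∧ N ≠ ⊥ ∧
      N ≤ R}).exists_minimal ⟨R, hRn, hR, le_rfl⟩
    have hmin' : ∀ M : Subgroup H, M.Normal → M ≤ N → M = ⊥ ∨ M = N := by
      intro M hM hle
      by_cases h : M = ⊥
      · exact Or.inl h
      · exact Or.inr (le_antisymm hle (hmin ⟨hM, h, hle.trans hNR⟩ hle))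
    have hNsolv : Group.IsSolvable N :=
      Group.isSolvable_of_isSolvable_injective (Subgroup.inclusion_injective hNR)
    have hNc : ∀ a ∈ N, ∀ b ∈ N, a * b = b * a := by
      have h1 : ⁅N, N⁆ < N := by
        have hnt : Nontrivial N := (nontrivial_iff_ne_bot N).mpr hNne
        have h2 := Group.IsSolvable.commutator_lt_top_of_nontrivial N
        have h3 := (map_subtype_lt_map_subtype (G' := N)).mpr h2
        rwa [commutator_def, map_commutator, ← MonoidHom.range_eq_map, N.range_subtype] at h3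
      rcases hmin' ⁅N, N⁆ inferInstance h1.le with h | h
      · intro a ha b hb
        have := commutator_mem_commutator ha hb
        rw [h, mem_bot, commutatorElement_eq_one_iff_mul_comm] at this
        exact this
      · exact absurd h h1.ne
    -- a prime
    have hNcard : Nat.card N ≠ 1 := by
      rw [Ne, card_eq_one]
      exact hNne
    obtain ⟨p, hp, hpdvd⟩ := Nat.exists_prime_and_dvd hNcard
    have : Fact p.Prime := ⟨hp⟩
    have hNexp : ∀ a ∈ N, a ^ p = 1 := by
      let Om : Subgroup H :=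
        { carrier := {a | a ∈ N ∧ a ^ p = 1}
          one_mem' := ⟨N.one_mem, one_pow _⟩
          mul_mem' := by
            rintro a b ⟨ha, ha'⟩ ⟨hb, hb'⟩
            refine ⟨N.mul_mem ha hb, ?_⟩
            have : Commute a b := hNc a ha b hb
            rw [this.mul_pow, ha', hb', one_mul]
          inv_mem' := by
            rintro a ⟨ha, ha'⟩
            exact ⟨N.inv_mem ha, by rw [inv_pow, ha', inv_one]⟩ }
      have hOn : Om.Normal := by
        refine ⟨fun b hb g => ⟨hNn.conj_mem b hb.1 g, ?_⟩⟩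
        rw [conj_pow, hb.2]
        group
      rcases hmin' Om hOn (fun a ha => ha.1) with h | h
      · exfalso
        obtain ⟨a, ha⟩ := exists_prime_orderOf_dvd_card' p hpdvd
        have h1 : (a : H) ∈ Om := by
          refine ⟨a.2, ?_⟩
          have := pow_orderOf_eq_one a
          rw [ha] at this
          exact congrArg Subtype.val this
        rw [h, mem_bot] at h1
        have h2 : a = 1 := Subtype.ext h1
        rw [h2, orderOf_one] at ha
        exact hp.one_lt.ne ha
      · intro a ha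
        rw [← h] at ha
        exact ha.2
    have hNp : IsPGroup p N := by
      intro a
      refine ⟨1, ?_⟩
      rw [pow_one]
      exact Subtype.ext (hNexp a a.2)
    -- quotient
    let f : H →* H ⧸ N := QuotientGroup.mk' N
    have hf : Function.Surjective f := QuotientGroup.mk'_surjective N
    have hcardQ : Nat.card (H ⧸ N) ≤ m := by
      have h1 := Subgroup.card_eq_card_quotient_mul_card_subgroup N
      have h2 : 0 < Nat.card (H ⧸ N) := Nat.card_pos
      have h3 : 0 < Nat.card N := Nat.card_pos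
      have h4 : 2 ≤ Nat.card N := by omega
      have h5 : Nat.card (H ⧸ N) * 2 ≤ Nat.card H := by
        rw [h1]
        exact Nat.mul_le_mul_left _ h4
      omega
    have hrQ : ∀ q : ℕ, q.Prime → ∀ P : Subgroup (H ⧸ N), IsPGroup q P →
        ∃ s : Finset (H ⧸ N), s.card ≤ r ∧ closure (s : Set (H ⧸ N)) = P := by
      intro q hq P hP
      have : Fact q.Prime := ⟨hq⟩
      obtain ⟨Q, hPQ⟩ := hP.exists_le_sylow
      obtain ⟨S, rfl⟩ := Sylow.mapSurjective_surjective hf q Q
      obtain ⟨s, hs, hsc⟩ := hr q hq (S.1 ⊓ P.comap f) (S.2.to_le inf_le_left)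
      refine ⟨s.image f, Finset.card_image_le.trans hs, ?_⟩
      rw [Finset.coe_image, ← MonoidHom.map_closure, hsc]
      apply le_antisymm
      · rintro _ ⟨x, hx, rfl⟩
        exact hx.2
      · intro y hy
        obtain ⟨x, hx, rfl⟩ := hPQ hy
        exact ⟨x, ⟨hx, hy⟩, rfl⟩
    have hRQ : (R.map f).Normal := hRn.map f hf
    have hRQs : Group.IsSolvable (R.map f) :=
      Group.isSolvable_of_surjective (f.subgroupMap_surjective R)
    obtain ⟨sQ, hsQ, hsQtop⟩ := ih (H ⧸ N) hcardQ (R.map f) hRQ hRQs r M hrM hrQ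
      ⟨t₀.image f, Finset.card_image_le.trans ht₀, by
        rw [Finset.coe_image, ← MonoidHom.map_closure, ← Subgroup.map_sup, ht₀R,
          ← MonoidHom.range_eq_map, MonoidHom.range_eq_top.mpr hf]⟩
    -- lift to a tuple of length M
    obtain ⟨g, hg⟩ : ∃ g : Fin M → H, closure (Set.range fun i => f (g i)) = ⊤ := by
      have h1 : ∃ e : Fin M → H ⧸ N, (sQ : Set (H ⧸ N)) ⊆ Set.range e := by
        obtain ⟨e⟩ : Nonempty (sQ ↪ Fin M) := by
          rw [Function.Embedding.nonempty_iff_card_le]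
          simpa using hsQ
        refine ⟨fun i => if h : ∃ y : sQ, e y = i then h.choose else 1, ?_⟩
        intro y hy
        refine ⟨e ⟨y, hy⟩, ?_⟩
        have h : ∃ y' : sQ, e y' = e ⟨y, hy⟩ := ⟨_, rfl⟩
        simp only
        rw [dif_pos h, e.injective h.choose_spec]
      obtain ⟨e, he⟩ := h1
      choose l hl using hf
      refine ⟨fun i => l (e i), ?_⟩
      rw [eq_top_iff, ← hsQtop]
      apply Subgroup.closure_mono
      intro y hy
      obtain ⟨i, rfl⟩ := he hy
      exact ⟨i, hl _⟩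
    by_contra hcon
    push Not at hcon
    have hco : ∀ n : Fin M → N, IsCo N (closure (Set.range fun i => g i * (n i : H))) := by
      intro n
      set K := closure (Set.range fun i => g i * (n i : H)) with hK
      have hKne : K ≠ ⊤ := by
        have h1 := hcon (Finset.univ.image fun i => g i * (n i : H))
          (Finset.card_image_le.trans (by simp))
        rw [Finset.coe_image, Finset.coe_univ, Set.image_univ] at h1
        exact h1
      have hNK : N ⊔ K = ⊤ := by
        have h1 : K.map f = ⊤ := by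
          rw [hK, MonoidHom.map_closure, eq_top_iff, ← hg]
          apply Subgroup.closure_mono
          rintro _ ⟨i, rfl⟩
          refine ⟨g i * (n i : H), ⟨i, rfl⟩, ?_⟩
          rw [map_mul]
          have : f (n i : H) = 1 := (QuotientGroup.eq_one_iff _).mpr (n i).2
          rw [this, mul_one]
        rw [eq_top_iff]
        intro x _
        have h2 : f x ∈ K.map f := by rw [h1]; trivial
        obtain ⟨y, hy, hyx⟩ := h2
        have h3 : x * y⁻¹ ∈ N := by
          rw [← QuotientGroup.eq_one_iff]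
          show f (x * y⁻¹) = 1
          rw [map_mul, map_inv, hyx, mul_inv_cancel]
        have h4 : x = (x * y⁻¹) * y := by group
        rw [h4]
        exact mul_mem ((le_sup_left : N ≤ _) h3) ((le_sup_right : K ≤ N ⊔ K) hy)
      refine ⟨?_, hNK⟩
      have hnorm : (N ⊓ K).Normal := by
        refine ⟨fun a ha x => ?_⟩
        have : x ∈ N ⊔ K := by rw [hNK]; trivial
        obtain ⟨b, hb, k, hk, rfl⟩ := mem_sup_of_normal_left.mp this
        have h1 : k * a * k⁻¹ ∈ N ⊓ K := ⟨hNn.conj_mem a ha.1 k,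
          K.mul_mem (K.mul_mem hk ha.2) (K.inv_mem hk)⟩
        have h2 : b * k * a * (b * k)⁻¹ = k * a * k⁻¹ := by
          have h3 : b * k * a * (b * k)⁻¹ = b * (k * a * k⁻¹) * b⁻¹ := by group
          rw [h3, hNc b hb _ h1.1]
          group
        rw [h2]
        exact h1
      rcases hmin' _ hnorm inf_le_left with h | h
      · exact h
      · exfalso
        apply hKne
        have : N ≤ K := by rw [← h]; exact inf_le_right
        rwa [sup_eq_right.mpr this] at hNK
    -- Sylow
    obtain ⟨S⟩ : Nonempty (Sylow p H) := inferInstance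
    have hNS : N ≤ S.1 := hNp.le_sylow_of_normal S
    have hcop : Nat.Coprime S.1.index (Nat.card N) := by
      obtain ⟨a, ha⟩ := IsPGroup.iff_card.mp hNp
      rw [ha]
      apply Nat.Coprime.pow_right
      rw [Nat.coprime_comm, hp.coprime_iff_not_dvd]
      exact S.not_dvd_index
    obtain ⟨sS, hsS, hsSc⟩ := hr p hp S.1 S.2
    -- complement inside S
    have hco1 := hco fun _ => 1
    set K := closure (Set.range fun i => g i * (((fun _ => 1 : Fin M → N) i : N) : H))
      with hK
    have hsup : (N.subgroupOf S.1) ⊔ (K.subgroupOf S.1) = ⊤ := by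
      rw [eq_top_iff]
      intro x _
      have : (x : H) ∈ N ⊔ K := by rw [hco1.2]; trivial
      obtain ⟨b, hb, k, hk, hx⟩ := mem_sup_of_normal_left.mp this
      have hbS : b ∈ S.1 := hNS hb
      have hkS : k ∈ S.1 := by
        have h1 : k = b⁻¹ * x := by rw [← hx]; group
        rw [h1]
        exact S.1.mul_mem (S.1.inv_mem hbS) x.2
      have h2 : x = (⟨b, hbS⟩ : S.1) * ⟨k, hkS⟩ := Subtype.ext hx.symm
      rw [h2]
      exact mul_mem ((le_sup_left : N.subgroupOf S.1 ≤ _) (mem_subgroupOf.mpr hb))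
        ((le_sup_right : K.subgroupOf S.1 ≤ _) (mem_subgroupOf.mpr hk))
    have hne : (K.subgroupOf S.1) ≠ ⊤ := by
      intro h
      rw [subgroupOf_eq_top] at h
      apply hNne
      rw [eq_bot_iff, ← hco1.1]
      exact le_inf le_rfl (hNS.trans h)
    have hsS' : ∃ s : Finset S.1, s.card ≤ r ∧ closure (s : Set S.1) = ⊤ := by
      have hsub : ∀ x ∈ sS, x ∈ S.1 := by
        intro x hx
        rw [← hsSc]
        exact subset_closure hx
      refine ⟨sS.attach.image fun x : {x // x ∈ sS} => (⟨x.1, hsub x.1 x.2⟩ : S.1), ?_, ?_⟩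
      · exact Finset.card_image_le.trans (by simpa using hsS)
      · have hinj : Function.Injective (Subgroup.map S.1.subtype) :=
          Subgroup.map_injective S.1.subtype_injective
        apply hinj
        rw [MonoidHom.map_closure]
        have h1 : (S.1.subtype '' ((sS.attach.image fun x : {x // x ∈ sS} =>
            (⟨x.1, hsub x.1 x.2⟩ : S.1) : Finset S.1) : Set S.1)) = (sS : Set H) := by
          ext x
          constructor
          · rintro ⟨y, hy, rfl⟩
            rw [Finset.mem_coe, Finset.mem_image] at hy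
            obtain ⟨a, _, rfl⟩ := hy
            exact a.2
          · intro hx
            refine ⟨⟨x, hsub x hx⟩, ?_, rfl⟩
            rw [Finset.mem_coe, Finset.mem_image]
            exact ⟨⟨x, hx⟩, Finset.mem_attach _ _, rfl⟩
        rw [h1, hsSc, ← MonoidHom.range_eq_map, Subgroup.range_subtype]
    obtain ⟨s₁, hs₁, hs₁c⟩ := hsS'
    obtain ⟨s', hs', hs'c⟩ := pgroup_drop S.2 (N.subgroupOf S.1) (K.subgroupOf S.1) hsup hne s₁ hs₁c
    -- the tuple t
    let t : Fin s'.card → H := fun j => ((s'.equivFin.symm j : S.1) : H)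
    have ht : N ⊔ closure (Set.range t) = S.1 := by
      apply le_antisymm
      · refine sup_le hNS ?_
        rw [closure_le]
        rintro _ ⟨j, rfl⟩
        exact ((s'.equivFin.symm j : S.1)).2
      · intro x hx
        have h1 : (⟨x, hx⟩ : S.1) ∈ N.subgroupOf S.1 ⊔ closure (s' : Set S.1) := by
          rw [hs'c]; trivial
        obtain ⟨b, hb, y, hy, hxy⟩ := mem_sup_of_normal_left.mp h1
        have h2 : x = (b : H) * (y : H) := (congrArg Subtype.val hxy).symm
        rw [h2]
        refine mul_mem ((le_sup_left : N ≤ _) (mem_subgroupOf.mp hb))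
          ((le_sup_right : _ ≤ N ⊔ closure (Set.range t)) ?_)
        have h3 : closure (s' : Set S.1) ≤ (closure (Set.range t)).comap S.1.subtype := by
          rw [closure_le]
          intro z hz
          refine subset_closure ⟨s'.equivFin ⟨z, hz⟩, ?_⟩
          simp [t]
        exact h3 hy
    have := count_complements hNc hNne hNS hcop g hco t ht
    omega

end Pool.Agent.Work.MP_518c18_al
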